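import Pool.Agent.SM3.Defs

set_option autoImplicit false

open scoped Classical
open Finset

/-! # [SM3-A1] counting solutions of systems of equations over `F₃` -/

namespace SM3

/-- orthogonality -/
theorem a1_orth {G : Type} [AddCommGroup G] [Fintype G] (φ : G → ZMod 3)
    (hφ : ∀ x y, φ (x + y) = φ x + φ y) :
    ∑ g, (ZMod.stdAddChar (φ g) : ℂ) = if ∀ g, φ g = 0 then (Fintype.card G : ℂ) else 0 := by
  split_ifs with h
  · simp only [h, AddChar.map_zero_eq_one]
    simp
  · push Not at h
    obtain ⟨g₀, hg⟩ := h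
    have h1 : ∑ g, (ZMod.stdAddChar (φ (g + g₀)) : ℂ) = ∑ g, (ZMod.stdAddChar (φ g) : ℂ) :=
      Fintype.sum_equiv (Equiv.addRight g₀) (fun g => (ZMod.stdAddChar (φ (g + g₀)) : ℂ))
        (fun g => (ZMod.stdAddChar (φ g) : ℂ)) (fun g => rfl)
    have h2 : ∑ g, (ZMod.stdAddChar (φ (g + g₀)) : ℂ) =
        (∑ g, (ZMod.stdAddChar (φ g) : ℂ)) * ZMod.stdAddChar (φ g₀) := by
      rw [Finset.sum_mul]
      apply Finset.sum_congr rfl
      intro g _
      rw [hφ, AddChar.map_add_eq_mul]
    have h3 : (ZMod.stdAddChar (φ g₀) : ℂ) ≠ 1 := by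
      intro h4
      apply hg
      have h5 : (ZMod.stdAddChar (φ g₀) : ℂ) = ZMod.stdAddChar (0 : ZMod 3) := by
        rw [h4, AddChar.map_zero_eq_one]
      exact ZMod.injective_stdAddChar h5
    have h4 : (∑ g, (ZMod.stdAddChar (φ g) : ℂ)) * (ZMod.stdAddChar (φ g₀) - 1) = 0 := by
      rw [mul_sub, ← h2, h1, mul_one, sub_self]
    rcases mul_eq_zero.mp h4 with h5 | h5
    · exact h5
    · exact absurd (sub_eq_zero.mp h5) h3

/-- [SM3-A1] -/
theorem card_sol {Ω κ : Type} [AddCommGroup Ω] [Fintype Ω] [Fintype κ] (T : Ω →+ (κ → ZMod 3)) (c : κ → ZMod 3)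
    (hc : ∀ w : κ → ZMod 3, (∀ x, ∑ i, w i * T x i = 0) → ∑ i, w i * c i = 0) :
    (univ.filter fun x : Ω => T x = c).card * 3 ^ Fintype.card κ =
      Fintype.card Ω * (univ.filter fun w : κ → ZMod 3 => ∀ x, ∑ i, w i * T x i = 0).card := by
  have h1 : ∑ w : κ → ZMod 3, ∑ x : Ω, (ZMod.stdAddChar (∑ i, w i * (T x i - c i)) : ℂ) =
      (Fintype.card Ω : ℂ) * (univ.filter fun w : κ → ZMod 3 => ∀ x, ∑ i, w i * T x i = 0).card := by
    have h2 : ∀ w : κ → ZMod 3, ∑ x : Ω, (ZMod.stdAddChar (∑ i, w i * (T x i - c i)) : ℂ) =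
        if ∀ x, ∑ i, w i * T x i = 0 then (Fintype.card Ω : ℂ) else 0 := by
      intro w
      have h3 : ∀ x : Ω, (ZMod.stdAddChar (∑ i, w i * (T x i - c i)) : ℂ) =
          ZMod.stdAddChar (∑ i, w i * T x i) * ZMod.stdAddChar (-∑ i, w i * c i) := by
        intro x
        rw [← AddChar.map_add_eq_mul, ← Finset.sum_neg_distrib, ← Finset.sum_add_distrib]
        congr 1
        apply Finset.sum_congr rfl
        intro i _
        ring
      simp only [h3]
      rw [← Finset.sum_mul, a1_orth (fun x : Ω => ∑ i, w i * T x i) (by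
        intro x y
        rw [← Finset.sum_add_distrib]
        apply Finset.sum_congr rfl
        intro i _
        rw [map_add, Pi.add_apply, mul_add])]
      split_ifs with h
      · rw [hc w h, neg_zero, AddChar.map_zero_eq_one, mul_one]
      · rw [zero_mul]
    simp only [h2]
    rw [← Finset.sum_filter, Finset.sum_const, nsmul_eq_mul, mul_comm]
  have h2 : ∑ w : κ → ZMod 3, ∑ x : Ω, (ZMod.stdAddChar (∑ i, w i * (T x i - c i)) : ℂ) =
      ((univ.filter fun x : Ω => T x = c).card : ℂ) * 3 ^ Fintype.card κ := by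
    rw [Finset.sum_comm]
    have h3 : ∀ x : Ω, ∑ w : κ → ZMod 3, (ZMod.stdAddChar (∑ i, w i * (T x i - c i)) : ℂ) =
        if T x = c then (3 : ℂ) ^ Fintype.card κ else 0 := by
      intro x
      rw [a1_orth (fun w : κ → ZMod 3 => ∑ i, w i * (T x i - c i)) (by
        intro w w'
        rw [← Finset.sum_add_distrib]
        apply Finset.sum_congr rfl
        intro i _
        rw [Pi.add_apply, add_mul])]
      have h4 : (∀ w : κ → ZMod 3, ∑ i, w i * (T x i - c i) = 0) ↔ T x = c := by
        constructor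
        · intro h
          funext i
          have h5 := h (Pi.single i 1)
          rw [Finset.sum_eq_single i] at h5
          · rw [Pi.single_eq_same, one_mul] at h5
            exact sub_eq_zero.mp h5
          · intro k _ hk
            rw [Pi.single_eq_of_ne hk, zero_mul]
          · intro h
            exact absurd (mem_univ i) h
        · intro h w
          apply Finset.sum_eq_zero
          intro i _
          rw [h, sub_self, mul_zero]
      by_cases h5 : T x = c
      · rw [if_pos (h4.mpr h5), if_pos h5]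
        simp
      · rw [if_neg (fun h => h5 (h4.mp h)), if_neg h5]
    simp only [h3]
    rw [← Finset.sum_filter, Finset.sum_const, nsmul_eq_mul]
  have h3 := h2.symm.trans h1
  exact_mod_cast h3

/-- [SM3-A1] the number of solutions of a system of independent homogeneous equations. -/
theorem card_ker {Ω κ : Type} [AddCommGroup Ω] [Fintype Ω] [Fintype κ] (T : Ω →+ (κ → ZMod 3))
    (h : ∀ w : κ → ZMod 3, (∀ x, ∑ i, w i * T x i = 0) → w = 0) :
    (univ.filter fun x : Ω => T x = 0).card * 3 ^ Fintype.card κ = Fintype.card Ω := by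
  rw [card_sol T 0 (fun w _ => by simp)]
  have h1 : (univ.filter fun w : κ → ZMod 3 => ∀ x, ∑ i, w i * T x i = 0) = {0} := by
    ext w
    rw [mem_filter, mem_singleton]
    constructor
    · intro hw
      exact h w hw.2
    · intro hw
      refine ⟨mem_univ _, fun x => ?_⟩
      rw [hw]
      simp
  rw [h1, card_singleton, mul_one]

end SM3
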