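import Pool.Agent.SM3.Defs

set_option autoImplicit false

open scoped Classical
open Finset

/-! # [SM3-A2] the annihilator of the equations -/

namespace SM3

variable {ι : Type} [Fintype ι]

theorem a2_two : ∀ x : ZMod 3, x + x = 0 → x = 0 := by decide

omit [Fintype ι] in
theorem a2_swap {j : ℕ} (L : Finset ι) (z w : Fin j → ι → ZMod 3) (s : ι → ι → ZMod 3) :
    ∑ k, ∑ p ∈ L, w k p * ∑ v ∈ L, s p v * (z k p - z k v) =
      ∑ p ∈ L, ∑ v ∈ L, s p v * ∑ k, w k p * (z k p - z k v) := by
  rw [Finset.sum_comm]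
  refine Finset.sum_congr rfl fun p _ => ?_
  simp only [Finset.mul_sum]
  rw [Finset.sum_comm]
  refine Finset.sum_congr rfl fun v _ => Finset.sum_congr rfl fun k _ => ?_
  ring

omit [Fintype ι] in
theorem a2_pair {j : ℕ} (z w : Fin j → ι → ZMod 3) (p q : ι) :
    ∑ k, w k p * (z k p - z k q) + ∑ k, w k q * (z k q - z k p) =
      ∑ k, (w k p - w k q) * (z k p - z k q) := by
  rw [← Finset.sum_add_distrib]
  refine Finset.sum_congr rfl fun k _ => ?_
  ring

omit [Fintype ι] in
theorem a2_one {j : ℕ} (L : Finset ι) (r : ι → ι → Prop)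
    (hr : ∀ u ∈ L, ∀ v ∈ L, u ≠ v → (r u v ↔ ¬ r v u)) (z w : Fin j → ι → ZMod 3)
    (h : ∀ ω : ι → ι → ZMod 3,
      ∑ k, ∑ p ∈ L, w k p * ∑ v ∈ L, (if r p v then ω p v else ω v p) * (z k p - z k v) = 0)
    (p q : ι) (hp : p ∈ L) (hq : q ∈ L) (hpq : p ≠ q) (hrpq : r p q) :
    ∑ k, (w k p - w k q) * (z k p - z k q) = 0 := by
  have hrqp : ¬ r q p := (hr p hp q hq hpq).1 hrpq
  have h1 := h fun u v => if u = p ∧ v = q then 1 else 0
  have h2 := a2_swap L z w (fun u v => if r u v then (if u = p ∧ v = q then (1 : ZMod 3) else 0)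
    else (if v = p ∧ u = q then 1 else 0))
  rw [h2] at h1
  have h3 : ∀ u ∈ L, ∀ v ∈ L, (if r u v then (if u = p ∧ v = q then (1 : ZMod 3) else 0)
      else (if v = p ∧ u = q then 1 else 0)) * ∑ k, w k u * (z k u - z k v) =
      (if u = p then (if v = q then ∑ k, w k u * (z k u - z k v) else 0) else 0) +
      (if u = q then (if v = p then ∑ k, w k u * (z k u - z k v) else 0) else 0) := by
    intro u _ v _
    by_cases hup : u = p
    · by_cases hvq : v = q
      · subst hup; subst hvq
        simp [hrpq, hpq]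
      · subst hup
        simp [hvq, hpq]
    · by_cases huq : u = q
      · by_cases hvp : v = p
        · subst huq; subst hvp
          simp [hrqp, hup]
        · subst huq
          simp [hvp, hup]
      · simp [hup, huq]
  rw [Finset.sum_congr rfl fun u hu => Finset.sum_congr rfl fun v hv => h3 u hu v hv] at h1
  simp only [Finset.sum_add_distrib] at h1
  rw [← a2_pair, ← h1]
  congr 1
  · rw [Finset.sum_eq_single_of_mem p hp]
    · simp only [if_true]
      rw [Finset.sum_eq_single_of_mem q hq]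
      · rw [if_pos rfl]
      · intro v _ hv
        rw [if_neg hv]
    · intro u _ hu
      simp [hu]
  · rw [Finset.sum_eq_single_of_mem q hq]
    · simp only [if_true]
      rw [Finset.sum_eq_single_of_mem p hp]
      · rw [if_pos rfl]
      · intro v _ hv
        rw [if_neg hv]
    · intro u _ hu
      simp [hu]

omit [Fintype ι] in
/-- [SM3-A2] `←`: twice the double sum is `∑ s p v ∑_k (w k p - w k v) (z k p - z k v) = 0`. `→`: `ω` = the indicator of `(p, q)`. -/
theorem ann_iff {j : ℕ} (L : Finset ι) (r : ι → ι → Prop) (hr : ∀ u ∈ L, ∀ v ∈ L, u ≠ v → (r u v ↔ ¬ r v u))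
    (z w : Fin j → ι → ZMod 3) :
    (∀ ω : ι → ι → ZMod 3, ∑ k, ∑ p ∈ L, w k p * ∑ v ∈ L, (if r p v then ω p v else ω v p) * (z k p - z k v) = 0) ↔
      ∀ p ∈ L, ∀ q ∈ L, ∑ k, (w k p - w k q) * (z k p - z k q) = 0 := by
  constructor
  · intro h p hp q hq
    by_cases hpq : p = q
    · subst hpq
      refine Finset.sum_eq_zero fun k _ => ?_
      rw [sub_self, zero_mul]
    · by_cases hrpq : r p q
      · exact a2_one L r hr z w h p q hp hq hpq hrpq
      · have hrqp : r q p := (hr q hq p hp (Ne.symm hpq)).2 hrpq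
        rw [← a2_one L r hr z w h q p hq hp (Ne.symm hpq) hrqp]
        refine Finset.sum_congr rfl fun k _ => ?_
        ring
  · intro h ω
    rw [a2_swap L z w (fun p v => if r p v then ω p v else ω v p)]
    apply a2_two
    have h1 : ∑ p ∈ L, ∑ v ∈ L, (if r p v then ω p v else ω v p) * ∑ k, w k p * (z k p - z k v) =
        ∑ p ∈ L, ∑ v ∈ L, (if r p v then ω p v else ω v p) * ∑ k, w k v * (z k v - z k p) := by
      rw [Finset.sum_comm]
      refine Finset.sum_congr rfl fun v hv => Finset.sum_congr rfl fun p hp => ?_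
      by_cases hpv : p = v
      · subst hpv
        rfl
      · have h2 := hr p hp v hv hpv
        congr 1
        by_cases h3 : r p v
        · rw [if_pos h3, if_neg (h2.1 h3)]
        · rw [if_neg h3, if_pos ((hr v hv p hp (Ne.symm hpv)).2 h3)]
    nth_rewrite 2 [h1]
    rw [← Finset.sum_add_distrib]
    refine Finset.sum_eq_zero fun p hp => ?_
    rw [← Finset.sum_add_distrib]
    refine Finset.sum_eq_zero fun v hv => ?_
    rw [← mul_add, a2_pair, h p hp v hv, mul_zero]

end SM3
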