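import Pool.Agent.SM3.A2

set_option autoImplicit false

open scoped Classical
open Finset

/-! # [SM3-A3] solving for the annihilator -/

namespace SM3

variable {ι : Type} [Fintype ι]

/-- a double sum of an antisymmetric function -/
theorem a3_anti {α : Type} [Fintype α] (f : α → α → ZMod 3) (h : ∀ a b, f a b = - f b a) :
    ∑ a, ∑ b, f a b = 0 := by
  apply a2_two
  nth_rewrite 2 [Finset.sum_comm]
  rw [← Finset.sum_add_distrib]
  refine Finset.sum_eq_zero fun a _ => ?_
  rw [← Finset.sum_add_distrib]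
  refine Finset.sum_eq_zero fun b _ => ?_
  rw [h a b]
  ring

omit [Fintype ι] in
/-- [SM3-A3a] independent functions have a nonsingular minor. -/
theorem left_inv {j : ℕ} {L : Finset ι} {z : Fin j → ι → ZMod 3} (h : Ind L z) (q₀ : ι) :
    ∃ c : Fin j → ι → ZMod 3, ∀ k l : Fin j, ∑ p ∈ L, c k p * (z l p - z l q₀) = if k = l then 1 else 0 := by
  let M : (Fin j → ZMod 3) →ₗ[ZMod 3] (L → ZMod 3) :=
    { toFun := fun β p => ∑ k, β k * (z k p - z k q₀)
      map_add' := by
        intro β β'
        funext p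
        simp only [Pi.add_apply, add_mul, Finset.sum_add_distrib]
      map_smul' := by
        intro c β
        funext p
        simp only [Pi.smul_apply, smul_eq_mul, RingHom.id_apply, Finset.mul_sum, mul_assoc] }
  have hM : ∀ β p, M β p = ∑ k, β k * (z k p - z k q₀) := fun β p => rfl
  have hinj : LinearMap.ker M = ⊥ := by
    rw [LinearMap.ker_eq_bot']
    intro β hβ
    refine (h (-∑ k, β k * z k q₀) β ?_).2
    intro i hi
    have h1 := congrFun hβ ⟨i, hi⟩
    rw [hM] at h1
    simp only [mul_sub, Finset.sum_sub_distrib, Pi.zero_apply] at h1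
    rw [← h1]
    ring
  obtain ⟨g, hg⟩ := LinearMap.exists_leftInverse_of_injective M hinj
  refine ⟨fun k p => if hp : p ∈ L then g (Pi.single ⟨p, hp⟩ 1) k else 0, ?_⟩
  intro k l
  have h1 : g (M (Pi.single l 1)) = Pi.single l 1 := by
    have := congrArg (fun f => f (Pi.single l (1 : ZMod 3))) hg
    simpa using this
  have h2 : M (Pi.single l 1) = ∑ p : L, (z l p - z l q₀) • (Pi.single p (1 : ZMod 3) : L → ZMod 3) := by
    funext p
    rw [hM, Finset.sum_apply]
    simp only [Pi.smul_apply, smul_eq_mul]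
    rw [Finset.sum_eq_single l, Finset.sum_eq_single p]
    · rw [Pi.single_eq_same, Pi.single_eq_same, one_mul, mul_one]
    · intro q _ hq'
      rw [Pi.single_eq_of_ne (Ne.symm hq'), mul_zero]
    · intro h; exact absurd (mem_univ _) h
    · intro m _ hm
      rw [Pi.single_eq_of_ne hm, zero_mul]
    · intro h; exact absurd (mem_univ _) h
  have h3 : g (M (Pi.single l 1)) k = ∑ p : L, (z l p - z l q₀) * g (Pi.single p 1) k := by
    rw [h2, map_sum, Finset.sum_apply]
    apply Finset.sum_congr rfl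
    intro p _
    rw [map_smul, Pi.smul_apply, smul_eq_mul]
  have h4 : ∑ p ∈ L, (if hp : p ∈ L then g (Pi.single ⟨p, hp⟩ 1) k else 0) * (z l p - z l q₀) =
      ∑ p : L, (z l p - z l q₀) * g (Pi.single p 1) k := by
    rw [← Finset.sum_coe_sort]
    apply Finset.sum_congr rfl
    intro p _
    rw [dif_pos p.2, mul_comm]
  rw [h4, ← h3, h1, Pi.single_apply]

omit [Fintype ι] in
/-- [SM3-A3b] PROOF. Put `w' k p = w k p - w k q₀`, `z' k p = z k p - z k q₀`. The hypothesis for `(p, q₀)` gives `∑_k w' k p z' k p = 0` for all `p ∈ L`; then the hypothesis for `(p, q)` gives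
`∑_k (w' k p z' k q + w' k q z' k p) = 0`. Multiply by `c l q` (`left_inv`) and sum over `q ∈ L`: `w' l p = ∑_k β l k z' k p` with `β l k = - ∑_q c l q w' k q`, and `β` is antisymmetric. -/
theorem ann_solve {j : ℕ} {L : Finset ι} {z : Fin j → ι → ZMod 3} (h : Ind L z) (hL : L.Nonempty) {w : Fin j → ι → ZMod 3}
    (hw : ∀ p ∈ L, ∀ q ∈ L, ∑ k, (w k p - w k q) * (z k p - z k q) = 0) :
    ∃ (α : Fin j → ZMod 3) (β : Fin j → Fin j → ZMod 3), (∀ k l, β k l = - β l k) ∧
      ∀ k, ∀ p ∈ L, w k p = α k + ∑ l, β k l * z l p := by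
  obtain ⟨q₀, hq⟩ := hL
  obtain ⟨c, hc⟩ := left_inv h q₀
  set w' : Fin j → ι → ZMod 3 := fun k p => w k p - w k q₀ with hw'
  set z' : Fin j → ι → ZMod 3 := fun k p => z k p - z k q₀ with hz'
  have hc' : ∀ k l : Fin j, ∑ p ∈ L, c k p * z' l p = if k = l then 1 else 0 := hc
  have h0 : ∀ p ∈ L, ∑ k, w' k p * z' k p = 0 := fun p hp => hw p hp q₀ hq
  have h1 : ∀ p ∈ L, ∀ q ∈ L, ∑ k, (w' k p * z' k q + w' k q * z' k p) = 0 := by
    intro p hp q hq'
    have h2 := hw p hp q hq'
    have h3 : ∑ k, (w k p - w k q) * (z k p - z k q) = ∑ k, w' k p * z' k p +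
        ∑ k, w' k q * z' k q - ∑ k, (w' k p * z' k q + w' k q * z' k p) := by
      rw [← Finset.sum_add_distrib, ← Finset.sum_sub_distrib]
      apply Finset.sum_congr rfl
      intro k _
      simp only [hw', hz']
      ring
    rw [h3, h0 p hp, h0 q hq', zero_add, zero_sub, neg_eq_zero] at h2
    exact h2
  set β : Fin j → Fin j → ZMod 3 := fun l k => - ∑ q ∈ L, c l q * w' k q with hβ
  have h2 : ∀ l, ∀ p ∈ L, w' l p = ∑ k, β l k * z' k p := by
    intro l p hp
    have h3 : ∑ q ∈ L, c l q * ∑ k, (w' k p * z' k q + w' k q * z' k p) = 0 := by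
      apply Finset.sum_eq_zero
      intro q hq'
      rw [h1 p hp q hq', mul_zero]
    have h4 : ∑ q ∈ L, c l q * ∑ k, (w' k p * z' k q + w' k q * z' k p) =
        ∑ k, w' k p * (∑ q ∈ L, c l q * z' k q) - ∑ k, β l k * z' k p := by
      simp only [Finset.mul_sum, hβ, neg_mul, Finset.sum_mul, Finset.sum_neg_distrib, sub_neg_eq_add]
      rw [Finset.sum_comm, ← Finset.sum_add_distrib]
      apply Finset.sum_congr rfl
      intro k _
      rw [← Finset.sum_add_distrib]
      apply Finset.sum_congr rfl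
      intro q _
      ring
    have h5 : ∑ k, w' k p * (∑ q ∈ L, c l q * z' k q) = w' l p := by
      simp only [hc']
      rw [Finset.sum_eq_single l]
      · rw [if_pos rfl, mul_one]
      · intro k _ hk
        rw [if_neg (Ne.symm hk), mul_zero]
      · intro h; exact absurd (mem_univ _) h
    rw [h4, h5] at h3
    exact sub_eq_zero.mp h3
  have hanti : ∀ k l, β k l = - β l k := by
    intro l k
    have h3 : β l k = - ∑ q ∈ L, c l q * ∑ m, β k m * z' m q := by
      simp only [hβ]
      congr 1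
      apply Finset.sum_congr rfl
      intro q hq'
      rw [h2 k q hq']
    have h4 : ∑ q ∈ L, c l q * ∑ m, β k m * z' m q = ∑ m, β k m * ∑ q ∈ L, c l q * z' m q := by
      simp only [Finset.mul_sum]
      rw [Finset.sum_comm]
      apply Finset.sum_congr rfl
      intro m _
      apply Finset.sum_congr rfl
      intro q _
      ring
    rw [h3, h4]
    simp only [hc']
    congr 1
    rw [Finset.sum_eq_single l]
    · rw [if_pos rfl, mul_one]
    · intro m _ hm
      rw [if_neg (Ne.symm hm), mul_zero]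
    · intro h; exact absurd (mem_univ _) h
  refine ⟨fun l => w l q₀ - ∑ k, β l k * z k q₀, β, hanti, ?_⟩
  intro l p hp
  have h3 := h2 l p hp
  simp only [hz', hw', mul_sub, Finset.sum_sub_distrib] at h3
  linear_combination h3

omit [Fintype ι] in
/-- [SM3-A3c] the converse. -/
theorem ann_conv {j : ℕ} {L : Finset ι} {z w : Fin j → ι → ZMod 3} (α : Fin j → ZMod 3) (β : Fin j → Fin j → ZMod 3)
    (h1 : ∀ k l, β k l = - β l k) (h3 : ∀ k, ∀ p ∈ L, w k p = α k + ∑ l, β k l * z l p) :
    ∀ p ∈ L, ∀ q ∈ L, ∑ k, (w k p - w k q) * (z k p - z k q) = 0 := by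
  intro p hp q hq
  have h4 : ∑ k, (w k p - w k q) * (z k p - z k q) =
      ∑ k, ∑ l, β k l * ((z l p - z l q) * (z k p - z k q)) := by
    apply Finset.sum_congr rfl
    intro k _
    have h5 : w k p - w k q = ∑ l, β k l * (z l p - z l q) := by
      rw [h3 k p hp, h3 k q hq]
      simp only [mul_sub, Finset.sum_sub_distrib]
      ring
    rw [h5, Finset.sum_mul]
    apply Finset.sum_congr rfl
    intro l _
    ring
  rw [h4]
  refine a3_anti _ fun k l => ?_
  rw [h1 k l]
  ring

end SM3
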