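import Pool.Agent.SM3.A3

set_option autoImplicit false

open scoped Classical
open Finset

/-! # [SM3-A4] the number of elements of the annihilator -/

namespace SM3

variable {ι : Type} [Fintype ι]

/-- [SM3-A4a] the number of alternating matrices -/
theorem card_alt (j : ℕ) : (univ.filter fun β : Fin j → Fin j → ZMod 3 => ∀ k l, β k l = - β l k).card =
    3 ^ (j * (j - 1) / 2) := by
  have h0 : Fintype.card {s : Fin j × Fin j // s.1 < s.2} = j * (j - 1) / 2 := by
    rw [← Nat.choose_two_right, Fintype.card_subtype]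
    have h := Sym2.card_subtype_not_diag (α := Fin j)
    rw [Fintype.card_fin] at h
    rw [← h, ← Fintype.card_subtype]
    refine Fintype.card_congr (Equiv.ofBijective
      (fun s : {s : Fin j × Fin j // s.1 < s.2} =>
        (⟨s(s.1.1, s.1.2), fun hd => s.2.ne (Sym2.mk_isDiag_iff.mp hd)⟩ :
          {s : Sym2 (Fin j) // ¬ s.IsDiag})) ⟨?_, ?_⟩)
    · rintro ⟨⟨a, b⟩, h1⟩ ⟨⟨a', b'⟩, h2⟩ h3
      simp only [Subtype.mk.injEq, Sym2.eq_iff] at h3
      rcases h3 with ⟨rfl, rfl⟩ | ⟨rfl, rfl⟩
      · rfl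
      · exact absurd h1 (not_lt.mpr h2.le)
    · rintro ⟨s, hs⟩
      induction s using Sym2.ind with
      | _ k l =>
        rcases lt_trichotomy k l with h1 | h1 | h1
        · exact ⟨⟨(k, l), h1⟩, rfl⟩
        · exact absurd (Sym2.mk_isDiag_iff.mpr h1) hs
        · exact ⟨⟨(l, k), h1⟩, Subtype.ext Sym2.eq_swap⟩
  have h1 : Fintype.card ({s : Fin j × Fin j // s.1 < s.2} → ZMod 3) = 3 ^ (j * (j - 1) / 2) := by
    rw [Fintype.card_fun, ZMod.card, h0]
  rw [← h1, ← Finset.card_univ]
  symm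
  refine Finset.card_bij (fun (g : {s : Fin j × Fin j // s.1 < s.2} → ZMod 3) _ =>
    fun k l => if h : k < l then g ⟨(k, l), h⟩ else if h' : l < k then - g ⟨(l, k), h'⟩ else 0) ?_ ?_ ?_
  · intro g _
    rw [mem_filter]
    refine ⟨mem_univ _, ?_⟩
    intro k l
    beta_reduce
    rcases lt_trichotomy k l with h2 | h2 | h2
    · rw [dif_pos h2, dif_neg h2.asymm, dif_pos h2, neg_neg]
    · subst h2
      simp
    · rw [dif_neg h2.asymm, dif_pos h2, dif_pos h2]
  · intro g _ g' _ hg
    funext s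
    obtain ⟨⟨k, l⟩, hs⟩ := s
    have h := congrFun (congrFun hg k) l
    have hs' : k < l := hs
    simpa only [dif_pos hs'] using h
  · intro β hβ
    rw [mem_filter] at hβ
    obtain ⟨-, hs⟩ := hβ
    refine ⟨fun s => β s.1.1 s.1.2, mem_univ _, ?_⟩
    funext k l
    rcases lt_trichotomy k l with h2 | h2 | h2
    · rw [dif_pos h2]
    · subst h2
      rw [dif_neg (lt_irrefl _), dif_neg (lt_irrefl _)]
      have h3 := hs k k
      symm
      apply a2_two
      nth_rewrite 1 [h3]
      ring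
    · rw [dif_neg h2.asymm, dif_pos h2, hs k l]

omit [Fintype ι] in
/-- [SM3-A4b] -/
theorem card_ann {j : ℕ} {L : Finset ι} {z : Fin j → ι → ZMod 3} (h : Ind L z) (hL : L.Nonempty) :
    (univ.filter fun w : Fin j → {p // p ∈ L} → ZMod 3 =>
      ∀ p q : {p // p ∈ L}, ∑ k, (w k p - w k q) * (z k p - z k q) = 0).card = 3 ^ (j * (j + 1) / 2) := by
  have h0 : j * (j + 1) / 2 = j + j * (j - 1) / 2 := by
    have := Nat.triangle_succ j
    rw [Nat.add_sub_cancel] at this
    rw [mul_comm j (j + 1), this, add_comm]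
  have h1 : ((univ : Finset (Fin j → ZMod 3)) ×ˢ (univ.filter fun β : Fin j → Fin j → ZMod 3 =>
      ∀ k l, β k l = - β l k)).card = 3 ^ (j * (j + 1) / 2) := by
    rw [Finset.card_product, card_alt, Finset.card_univ, Fintype.card_fun, ZMod.card,
      Fintype.card_fin, h0, pow_add]
  rw [← h1]
  symm
  refine Finset.card_bij (fun ab _ => fun k p => ab.1 k + ∑ l, ab.2 k l * z l p) ?_ ?_ ?_
  · rintro ⟨α, β⟩ hab
    rw [mem_product, mem_filter] at hab
    obtain ⟨-, -, hs⟩ := hab
    rw [mem_filter]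
    refine ⟨mem_univ _, ?_⟩
    intro p q
    exact ann_conv (z := z) (w := fun k p => α k + ∑ l, β k l * z l p) α β hs
      (fun k p _ => rfl) p p.2 q q.2
  · rintro ⟨α, β⟩ hab ⟨α', β'⟩ hab' heq
    have key : ∀ k, α k - α' k = 0 ∧ (fun l => β k l - β' k l) = 0 := by
      intro k
      refine h (α k - α' k) (fun l => β k l - β' k l) ?_
      intro i hi
      have h2 := congrFun (congrFun heq k) ⟨i, hi⟩
      simp only at h2
      have h3 : ∑ l, (β k l - β' k l) * z l i = ∑ l, β k l * z l i - ∑ l, β' k l * z l i := by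
        rw [← Finset.sum_sub_distrib]
        exact Finset.sum_congr rfl fun l _ => sub_mul _ _ _
      rw [h3]
      linear_combination h2
    refine Prod.ext ?_ ?_
    · funext k
      exact sub_eq_zero.1 (key k).1
    · funext k l
      exact sub_eq_zero.1 (congrFun (key k).2 l)
  · intro w hw
    rw [mem_filter] at hw
    have hw2 := hw.2
    obtain ⟨α, β, hs, hab⟩ := ann_solve (w := fun k p => if hp : p ∈ L then w k ⟨p, hp⟩ else 0) h hL (by
      intro p hp q hq
      simp only [dif_pos hp, dif_pos hq]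
      exact hw2 ⟨p, hp⟩ ⟨q, hq⟩)
    refine ⟨(α, β), ?_, ?_⟩
    · rw [mem_product, mem_filter]
      exact ⟨mem_univ _, mem_univ _, hs⟩
    · funext k p
      have h4 := hab k p p.2
      rw [dif_pos p.2] at h4
      exact h4.symm

end SM3
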