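import Pool.Agent.SM3.A1
import Pool.Agent.SM3.A2
import Pool.Agent.SM3.A4

set_option autoImplicit false

open scoped Classical
open Finset

/-! # [SM3-A5] the probability that given vectors are in the kernel -/

namespace SM3

variable {ι : Type} [Fintype ι]

/-! ### Helper lemmas -/

theorem a5_cardg {α : Type} (F1 F2 : Fintype α) (p : α → Prop) (i1 i2 : DecidablePred p) :
    (@Finset.filter α p i1 (@Finset.univ α F1)).card =
      (@Finset.filter α p i2 (@Finset.univ α F2)).card := by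
  obtain rfl : F1 = F2 := Subsingleton.elim _ _
  obtain rfl : i1 = i2 := Subsingleton.elim _ _
  rfl

theorem a5_sol {Ω κ : Type} [AddCommGroup Ω] [iΩ : Fintype Ω] [Fintype κ]
    [iκ : Fintype (κ → ZMod 3)] (T : Ω →+ (κ → ZMod 3)) (c : κ → ZMod 3)
    (hc : ∀ w : κ → ZMod 3, (∀ x, ∑ i, w i * T x i = 0) → ∑ i, w i * c i = 0)
    (i4 : DecidablePred fun x : Ω => T x = c)
    (i5 : DecidablePred fun w : κ → ZMod 3 => ∀ x, ∑ i, w i * T x i = 0) :
    (@Finset.filter Ω (fun x => T x = c) i4 univ).card * 3 ^ Fintype.card κ =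
      Fintype.card Ω * (@Finset.filter (κ → ZMod 3) (fun w => ∀ x, ∑ i, w i * T x i = 0) i5
        (@Finset.univ _ iκ)).card := by
  have h := card_sol T c hc
  exact (congrArg (· * 3 ^ Fintype.card κ) (a5_cardg _ _ _ _ _)).trans
    (h.trans (congrArg (Fintype.card Ω * ·) (a5_cardg _ _ _ _ _)))

/-- the contribution of the fixed symbols to the row `p` of `(Laplacian + diag e) z` -/
noncomputable def Fx (L : Finset ι) (a : ι → ι → ZMod 3) (e z : ι → ZMod 3) (p : ι) : ZMod 3 :=
  ∑ v, (if p ∈ L ∧ v ∈ L then 0 else a p v * (z p - z v)) + e p * z p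

/-- [SM3-A5a] PROOF. Split `∑_v mx L r a ω p v (z p - z v)` according to `p ∈ L ∧ v ∈ L`. -/
theorem Lp_mx (L : Finset ι) (r : ι → ι → Prop) (a ω : ι → ι → ZMod 3) (e z : ι → ZMod 3) (p : ι) :
    Lp (mx L r a ω) z p + e p * z p =
      (if p ∈ L then ∑ v ∈ L, (if r p v then ω p v else ω v p) * (z p - z v) else 0) + Fx L a e z p := by
  unfold Lp Fx
  rw [← add_assoc]
  congr 1
  by_cases hp : p ∈ L
  · rw [if_pos hp, ← Finset.sum_ite_mem_eq L, ← Finset.sum_add_distrib]
    refine Finset.sum_congr rfl fun v _ => ?_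
    unfold mx
    by_cases hv : v ∈ L
    · have h1 : p ∈ L ∧ v ∈ L := ⟨hp, hv⟩
      rw [if_pos hv, if_pos h1, if_pos h1, add_zero]
    · have h1 : ¬ (p ∈ L ∧ v ∈ L) := fun h => hv h.2
      rw [if_neg hv, if_neg h1, if_neg h1, zero_add]
  · rw [if_neg hp, zero_add]
    refine Finset.sum_congr rfl fun v _ => ?_
    have h1 : ¬ (p ∈ L ∧ v ∈ L) := fun h => hp h.1
    unfold mx
    rw [if_neg h1, if_neg h1]

/-- [SM3-A5b] -/
theorem sum_Fx_symm {L : Finset ι} {a : ι → ι → ZMod 3} (ha : ∀ u v, u ≠ v → a u v = a v u) (e y z : ι → ZMod 3) :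
    ∑ p, y p * Fx L a e z p = ∑ p, z p * Fx L a e y p := by
  rw [← sub_eq_zero, ← Finset.sum_sub_distrib]
  have h1 : ∀ p, y p * Fx L a e z p - z p * Fx L a e y p =
      ∑ v, (if p ∈ L ∧ v ∈ L then 0 else a p v * (z p * y v - y p * z v)) := by
    intro p
    unfold Fx
    rw [mul_add, mul_add, Finset.mul_sum, Finset.mul_sum]
    have h2 : (∑ v, y p * (if p ∈ L ∧ v ∈ L then 0 else a p v * (z p - z v)) + y p * (e p * z p)) -
        (∑ v, z p * (if p ∈ L ∧ v ∈ L then 0 else a p v * (y p - y v)) + z p * (e p * y p)) =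
        ∑ v, (y p * (if p ∈ L ∧ v ∈ L then 0 else a p v * (z p - z v)) -
          z p * (if p ∈ L ∧ v ∈ L then 0 else a p v * (y p - y v))) := by
      rw [Finset.sum_sub_distrib]
      ring
    rw [h2]
    refine Finset.sum_congr rfl fun v _ => ?_
    by_cases h3 : p ∈ L ∧ v ∈ L
    · rw [if_pos h3, if_pos h3, if_pos h3, mul_zero, mul_zero, sub_zero]
    · rw [if_neg h3, if_neg h3, if_neg h3]
      ring
  rw [Finset.sum_congr rfl fun p _ => h1 p]
  refine a3_anti _ fun p v => ?_
  by_cases hpv : p = v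
  · subst hpv
    split_ifs
    · simp
    · ring
  · by_cases h3 : p ∈ L ∧ v ∈ L
    · rw [if_pos h3, if_pos h3.symm, neg_zero]
    · rw [if_neg h3, if_neg fun h => h3 h.symm, ha p v hpv]
      ring

/-- [SM3-A5c] -/
theorem sum_Fx {L : Finset ι} {a : ι → ι → ZMod 3} (ha : ∀ u v, u ≠ v → a u v = a v u) (e z : ι → ZMod 3) :
    ∑ p, Fx L a e z p = ∑ p, e p * z p := by
  have h := sum_Fx_symm (L := L) ha e (fun _ => 1) z
  have h1 : ∀ p, Fx L a e (fun _ => 1) p = e p := by
    intro p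
    unfold Fx
    rw [mul_one, Finset.sum_eq_zero, zero_add]
    intro v _
    rw [sub_self, mul_zero, ite_self]
  simp only [h1, one_mul] at h
  rw [h]
  exact Finset.sum_congr rfl fun p _ => mul_comm _ _

/-- [SM3-A5d] PROOF. `p ∉ L`: `Fx` = the left side of the equation in `Hs`. So for `z ∈ Hs` the sums of `sum_Fx_symm` and `sum_Fx` may be restricted to `p ∈ L`. -/
theorem Fx_of_Hs {L : Finset ι} {a : ι → ι → ZMod 3} {e z : ι → ZMod 3} (hz : z ∈ Hs L a e) {p : ι} (hp : p ∉ L) :
    Fx L a e z p = 0 := by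
  have h1 := (Finset.mem_filter.1 hz).2.1 p hp
  unfold Fx
  unfold Lp at h1
  rw [← h1]
  congr 1
  refine Finset.sum_congr rfl fun v _ => ?_
  rw [if_neg fun h => hp h.1]

/-- [SM3-A5e] PROOF. For `p ∉ L`, `mx L r a ω p v = a p v`, so the equation is the one of `Hs`; and `∑_p (Lp b z p + e p z p) = ∑ e p z p` for `b = mx ..`, symmetric off the diagonal (pairs `(p, v)`, `(v, p)`). -/
theorem Kr_sub_Hs {L : Finset ι} {r : ι → ι → Prop} {a : ι → ι → ZMod 3} {e : ι → ZMod 3}
    (hr : ∀ u ∈ L, ∀ v ∈ L, u ≠ v → (r u v ↔ ¬ r v u)) (ha : ∀ u v, u ≠ v → a u v = a v u) (ω : ι → ι → ZMod 3) :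
    Kr (mx L r a ω) e ⊆ Hs L a e := by
  intro z hz
  have h1 : ∀ i, Lp (mx L r a ω) z i + e i * z i = 0 := (Finset.mem_filter.1 hz).2
  refine Finset.mem_filter.2 ⟨Finset.mem_univ _, ?_, ?_⟩
  · intro i hi
    rw [← h1 i]
    congr 1
    unfold Lp
    refine Finset.sum_congr rfl fun v _ => ?_
    unfold mx
    rw [if_neg fun h => hi h.1]
  · have h2 : ∑ i, (Lp (mx L r a ω) z i + e i * z i) = 0 :=
      Finset.sum_eq_zero fun i _ => h1 i
    rw [Finset.sum_add_distrib] at h2
    have h3 : ∑ i, Lp (mx L r a ω) z i = 0 := by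
      unfold Lp
      refine a3_anti _ fun p v => ?_
      by_cases hpv : p = v
      · subst hpv
        rw [sub_self, mul_zero, neg_zero]
      · have h4 : mx L r a ω p v = mx L r a ω v p := by
          unfold mx
          by_cases h5 : p ∈ L ∧ v ∈ L
          · rw [if_pos h5, if_pos h5.symm]
            have h6 := hr p h5.1 v h5.2 hpv
            by_cases h7 : r p v
            · rw [if_pos h7, if_neg (h6.1 h7)]
            · rw [if_neg h7, if_pos]
              by_contra h8
              exact h7 (h6.2 h8)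
          · rw [if_neg h5, if_neg fun h => h5 h.symm]
            exact ha p v hpv
        rw [h4]
        ring
    rw [h3, zero_add] at h2
    exact h2

/-- [SM3-A5] PROOF. By `Lp_mx`, `Fx_of_Hs` the condition on `ω` is `T ω = c` with `κ = Fin j × {p // p ∈ L}`, `T ω (k, p) = ∑_{v ∈ L} (if r p v then ω p v else ω v p) (z k p - z k v)` (additive in `ω`), `c (k, p) = Fx L a e (z k) p`.
`card_sol`: the annihilator is that of `ann_iff` (extend `w` by `0`; only the values on `L` matter), `card_ann`: `2^{j(j+1)/2}` elements. Hypothesis `hc` of `card_sol`: for `w k p = α k + ∑_l β k l z l p` on `L` (`ann_solve`)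
`∑_k ∑_{p ∈ L} w k p Fx (z k) p = ∑_k α k ∑_{p ∈ L} Fx (z k) p + ∑_{k,l} β k l ∑_{p ∈ L} z l p Fx (z k) p`; the first sums are `∑ e p z k p = 0` (`sum_Fx`, `Fx_of_Hs`, `Hs`), and `∑_{p ∈ L} z l p Fx (z k) p` is symmetric in
`k, l` (`sum_Fx_symm`, `Fx_of_Hs`), `β` alternating. -/
theorem card_omega {j : ℕ} {L : Finset ι} {r : ι → ι → Prop} {a : ι → ι → ZMod 3} {e : ι → ZMod 3}
    (hr : ∀ u ∈ L, ∀ v ∈ L, u ≠ v → (r u v ↔ ¬ r v u)) (ha : ∀ u v, u ≠ v → a u v = a v u) (hL : L.Nonempty)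
    {z : Fin j → ι → ZMod 3} (hz : ∀ k, z k ∈ Hs L a e) (hi : Ind L z) :
    (univ.filter fun ω : ι → ι → ZMod 3 => ∀ k, z k ∈ Kr (mx L r a ω) e).card * 3 ^ (j * L.card) =
      3 ^ (j * (j + 1) / 2) * Fintype.card (ι → ι → ZMod 3) := by
  let T : (ι → ι → ZMod 3) →+ (Fin j × {p // p ∈ L} → ZMod 3) :=
    { toFun := fun ω i => ∑ v ∈ L, (if r i.2 v then ω i.2 v else ω v i.2) * (z i.1 i.2 - z i.1 v)
      map_zero' := by
        funext i
        simp
      map_add' := by
        intro ω ω'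
        funext i
        simp only [Pi.add_apply]
        rw [← Finset.sum_add_distrib]
        refine Finset.sum_congr rfl fun v _ => ?_
        split_ifs <;> ring }
  have hT : ∀ ω i, T ω i =
    ∑ v ∈ L, (if r i.2 v then ω i.2 v else ω v i.2) * (z i.1 i.2 - z i.1 v) := fun _ _ => rfl
  let c : Fin j × {p // p ∈ L} → ZMod 3 := fun i => -Fx L a e (z i.1) i.2
  have hcd : ∀ i, c i = -Fx L a e (z i.1) i.2 := fun _ => rfl
  -- the condition
  have hcond : ∀ ω : ι → ι → ZMod 3, (∀ k, z k ∈ Kr (mx L r a ω) e) ↔ T ω = c := by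
    intro ω
    constructor
    · intro h
      funext i
      have h1 := (Finset.mem_filter.1 (h i.1)).2 i.2
      rw [Lp_mx, if_pos i.2.2] at h1
      exact eq_neg_of_add_eq_zero_left h1
    · intro h k
      refine Finset.mem_filter.2 ⟨Finset.mem_univ _, fun p => ?_⟩
      rw [Lp_mx]
      by_cases hp : p ∈ L
      · rw [if_pos hp]
        have h2 : ∑ v ∈ L, (if r p v then ω p v else ω v p) * (z k p - z k v) = -Fx L a e (z k) p :=
          congrFun h (k, ⟨p, hp⟩)
        rw [h2]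
        ring
      · rw [if_neg hp, zero_add]
        exact Fx_of_Hs (hz k) hp
  -- extension of the coefficients
  let ext : (Fin j × {p // p ∈ L} → ZMod 3) → Fin j → ι → ZMod 3 :=
    fun w k p => if h : p ∈ L then w (k, ⟨p, h⟩) else 0
  have hext : ∀ w k (p : {p // p ∈ L}), ext w k p = w (k, p) := fun w k p => dif_pos p.2
  have hsum : ∀ (w : Fin j × {p // p ∈ L} → ZMod 3) (f : Fin j → ι → ZMod 3),
      ∑ i : Fin j × {p // p ∈ L}, w i * f i.1 i.2 = ∑ k, ∑ p ∈ L, ext w k p * f k p := by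
    intro w f
    rw [Fintype.sum_prod_type]
    refine Finset.sum_congr rfl fun k _ => ?_
    rw [← Finset.sum_coe_sort L (fun p => ext w k p * f k p)]
    exact Finset.sum_congr rfl fun p _ => by rw [hext]
  have hann : ∀ w : Fin j × {p // p ∈ L} → ZMod 3, (∀ x, ∑ i, w i * T x i = 0) ↔
      ∀ p ∈ L, ∀ q ∈ L, ∑ k, (ext w k p - ext w k q) * (z k p - z k q) = 0 := by
    intro w
    rw [← ann_iff L r hr z (ext w)]
    refine forall_congr' fun ω => ?_
    have h1 := hsum w (fun k p => ∑ v ∈ L, (if r p v then ω p v else ω v p) * (z k p - z k v))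
    rw [← h1]
    rfl
  have hc : ∀ w : Fin j × {p // p ∈ L} → ZMod 3, (∀ x, ∑ i, w i * T x i = 0) →
      ∑ i, w i * c i = 0 := by
    intro w hw
    obtain ⟨α, β, hβs, hαβ⟩ := ann_solve hi hL ((hann w).1 hw)
    have h1 := hsum w (fun k p => Fx L a e (z k) p)
    change ∑ i : Fin j × {p // p ∈ L}, w i * -Fx L a e (z i.1) i.2 = 0
    simp only [mul_neg, Finset.sum_neg_distrib]
    rw [h1, neg_eq_zero]
    have hL0 : ∀ (y : ι → ZMod 3) (k : Fin j), ∑ p ∈ L, y p * Fx L a e (z k) p =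
        ∑ p, y p * Fx L a e (z k) p := by
      intro y k
      refine Finset.sum_subset (Finset.subset_univ _) fun p _ hp => ?_
      rw [Fx_of_Hs (hz k) hp, mul_zero]
    have h2 : ∀ k, ∑ p ∈ L, ext w k p * Fx L a e (z k) p =
        ∑ l, β k l * ∑ p, z l p * Fx L a e (z k) p := by
      intro k
      have h3 : ∑ p ∈ L, ext w k p * Fx L a e (z k) p =
          ∑ p ∈ L, (α k * Fx L a e (z k) p + ∑ l, β k l * (z l p * Fx L a e (z k) p)) := by
        refine Finset.sum_congr rfl fun p hp => ?_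
        rw [hαβ k p hp, add_mul, Finset.sum_mul]
        congr 1
        exact Finset.sum_congr rfl fun l _ => by ring
      rw [h3, Finset.sum_add_distrib, Finset.sum_comm]
      have h4 : ∑ p ∈ L, α k * Fx L a e (z k) p = 0 := by
        rw [← Finset.mul_sum]
        have h5 := hL0 (fun _ => 1) k
        simp only [one_mul] at h5
        rw [h5, sum_Fx ha, (Finset.mem_filter.1 (hz k)).2.2, mul_zero]
      rw [h4, zero_add]
      refine Finset.sum_congr rfl fun l _ => ?_
      rw [← hL0, Finset.mul_sum]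
    rw [Finset.sum_congr rfl fun k _ => h2 k]
    refine a3_anti _ fun k l => ?_
    rw [hβs k l, sum_Fx_symm ha e (z l) (z k)]
    ring
  -- the annihilator
  have hcardw : (univ.filter fun w : Fin j × {p // p ∈ L} → ZMod 3 =>
      ∀ x, ∑ i, w i * T x i = 0).card = 3 ^ (j * (j + 1) / 2) := by
    rw [← card_ann hi hL]
    refine Finset.card_bij (fun w _ => fun k p => w (k, p)) ?_ ?_ ?_
    · intro w hw
      refine Finset.mem_filter.2 ⟨Finset.mem_univ _, fun p q => ?_⟩
      have h1 := (hann w).1 (Finset.mem_filter.1 hw).2 p p.2 q q.2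
      simp only [hext] at h1
      exact h1
    · intro w _ w' _ h
      funext i
      exact congrFun (congrFun h i.1) i.2
    · intro w hw
      refine ⟨fun i => w i.1 i.2, Finset.mem_filter.2 ⟨Finset.mem_univ _, ?_⟩, rfl⟩
      rw [hann]
      intro p hp q hq
      have h1 := (Finset.mem_filter.1 hw).2 ⟨p, hp⟩ ⟨q, hq⟩
      rw [← h1]
      refine Finset.sum_congr rfl fun k _ => ?_
      have e1 := hext (fun i => w i.1 i.2) k ⟨p, hp⟩
      have e2 := hext (fun i => w i.1 i.2) k ⟨q, hq⟩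
      simp only at e1 e2
      rw [e1, e2]
  have hcardκ : Fintype.card (Fin j × {p // p ∈ L}) = j * L.card := by
    rw [Fintype.card_prod, Fintype.card_fin, Fintype.card_coe]
  have hcw : (univ.filter fun w : Fin j × {p // p ∈ L} → ZMod 3 =>
      ∀ x, ∑ i, w i * T x i = 0).card * Fintype.card (ι → ι → ZMod 3) =
      (univ.filter fun x : ι → ι → ZMod 3 => T x = c).card *
        3 ^ Fintype.card (Fin j × {p // p ∈ L}) := by
    rw [mul_comm]
    exact (a5_sol T c hc _ _).symm
  rw [hcardw, hcardκ] at hcw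
  have hset : (univ.filter fun ω : ι → ι → ZMod 3 => ∀ k, z k ∈ Kr (mx L r a ω) e) =
      univ.filter fun ω : ι → ι → ZMod 3 => T ω = c :=
    Finset.filter_congr fun ω _ => hcond ω
  rw [hset, hcw]

end SM3
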