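import Pool.Agent.SM3.A1

set_option autoImplicit false

open scoped Classical
open Finset

/-! # [SM3-A6] tuples -/

namespace SM3

variable {ι : Type} [Fintype ι]

/-! ### Helper lemmas -/

theorem a6_Lp_add (b : ι → ι → ZMod 3) (z z' : ι → ZMod 3) (i : ι) :
    Lp b (z + z') i = Lp b z i + Lp b z' i := by
  unfold Lp
  rw [← Finset.sum_add_distrib]
  refine Finset.sum_congr rfl fun v _ => ?_
  rw [Pi.add_apply, Pi.add_apply]
  ring

theorem a6_Lp_comb {j : ℕ} (b : ι → ι → ZMod 3) (α : ZMod 3) (β : Fin j → ZMod 3)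
    (z : Fin j → ι → ZMod 3) (i : ι) :
    Lp b (fun v => α + ∑ k, β k * z k v) i = ∑ k, β k * Lp b (z k) i := by
  unfold Lp
  simp only [Finset.mul_sum]
  rw [Finset.sum_comm]
  refine Finset.sum_congr rfl fun v _ => ?_
  have h1 : α + ∑ k, β k * z k i - (α + ∑ k, β k * z k v) = ∑ k, β k * (z k i - z k v) := by
    have h2 : ∑ k, β k * (z k i - z k v) = ∑ k, β k * z k i - ∑ k, β k * z k v := by
      rw [← Finset.sum_sub_distrib]
      exact Finset.sum_congr rfl fun k _ => by ring
    rw [h2]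
    ring
  rw [h1, Finset.mul_sum]
  exact Finset.sum_congr rfl fun k _ => by ring

/-- the equations of `Hs` as a homomorphism -/
noncomputable def a6T (L : Finset ι) (a : ι → ι → ZMod 3) (e : ι → ZMod 3) :
    (ι → ZMod 3) →+ ({i // i ∉ L} ⊕ {_u : Unit // e ≠ 0} → ZMod 3) where
  toFun z := Sum.elim (fun i => Lp a z i + e i * z i) (fun _ => ∑ i, e i * z i)
  map_zero' := by
    funext i
    rcases i with i | i <;> simp [Lp]
  map_add' := by
    intro z z'
    funext i
    rcases i with i | i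
    · simp only [Sum.elim_inl, Pi.add_apply]
      rw [a6_Lp_add]
      ring
    · simp only [Sum.elim_inr, Pi.add_apply]
      rw [← Finset.sum_add_distrib]
      exact Finset.sum_congr rfl fun v _ => by ring

theorem a6_mem_Hs {L : Finset ι} {a : ι → ι → ZMod 3} {e z : ι → ZMod 3} :
    z ∈ Hs L a e ↔ a6T L a e z = 0 := by
  constructor
  · intro h
    have h1 := (Finset.mem_filter.1 h).2
    funext i
    rcases i with i | i
    · exact h1.1 i i.2
    · exact h1.2
  · intro h
    refine Finset.mem_filter.2 ⟨Finset.mem_univ _, fun i hi => ?_, ?_⟩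
    · exact congrFun h (Sum.inl ⟨i, hi⟩)
    · by_cases he : e = 0
      · simp [he]
      · exact congrFun h (Sum.inr ⟨(), he⟩)

theorem a6_indep {L : Finset ι} {r : ι → ι → Prop} {a : ι → ι → ZMod 3} {e : ι → ZMod 3}
    (h : Gd L r a e) (w : {i // i ∉ L} ⊕ {_u : Unit // e ≠ 0} → ZMod 3)
    (hw : ∀ z, ∑ i, w i * a6T L a e z i = 0) : w = 0 := by
  obtain ⟨α, hα⟩ : ∃ α : ZMod 3, ∀ u : {_u : Unit // e ≠ 0}, w (Sum.inr u) = α := by
    by_cases he : e = 0
    · exact ⟨0, fun u => absurd he u.2⟩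
    · exact ⟨w (Sum.inr ⟨(), he⟩), fun u => rfl⟩
  let w' : ι → ZMod 3 := fun i => if hi : i ∉ L then - w (Sum.inl ⟨i, hi⟩) else 0
  have hw' : ∀ i : {i // i ∉ L}, w' i = - w (Sum.inl i) := fun i => dif_pos i.2
  have hA : ∀ u ∈ L, w' u = 0 := fun u hu => dif_neg (not_not.2 hu)
  have key : ∀ p ∈ L, ∑ u, w' u * a u p + α * e p = 0 := by
    intro p hp
    have h1 := hw (Pi.single p 1)
    rw [Fintype.sum_sum_type] at h1
    have h2 : ∑ i : {i // i ∉ L}, w (Sum.inl i) * a6T L a e (Pi.single p 1) (Sum.inl i) =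
        ∑ u, w' u * a u p := by
      have h3 : ∀ i : {i // i ∉ L}, w (Sum.inl i) * a6T L a e (Pi.single p 1) (Sum.inl i) =
          (fun i : ι => w' i * a i p) i := by
        intro i
        change w (Sum.inl i) * (Lp a (Pi.single p 1) i + e i * (Pi.single p 1 : ι → ZMod 3) i) = _
        have h4 : (i : ι) ≠ p := fun h5 => i.2 (h5 ▸ hp)
        have h5 : (Pi.single p 1 : ι → ZMod 3) i = 0 := Pi.single_eq_of_ne h4 1
        have h6 : Lp a (Pi.single p 1) i = - a i p := by
          unfold Lp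
          rw [Finset.sum_eq_single p]
          · rw [h5, Pi.single_eq_same]
            ring
          · intro v _ hv
            rw [h5, Pi.single_eq_of_ne hv, sub_zero, mul_zero]
          · intro h7
            exact absurd (Finset.mem_univ p) h7
        rw [h5, h6, mul_zero, add_zero]
        show _ = w' i * a i p
        rw [hw']
        ring
      rw [Finset.sum_congr rfl fun i _ => h3 i]
      rw [← Finset.sum_subtype (univ.filter fun i => i ∉ L) (fun x => by simp)
        (fun i => w' i * a i p), Finset.sum_filter]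
      refine Finset.sum_congr rfl fun i _ => ?_
      by_cases h8 : i ∉ L
      · rw [if_pos h8]
      · rw [if_neg h8, hA i (not_not.1 h8), zero_mul]
    have h3 : ∑ u : {_u : Unit // e ≠ 0}, w (Sum.inr u) *
        a6T L a e (Pi.single p 1) (Sum.inr u) = α * e p := by
      have h4 : ∀ u : {_u : Unit // e ≠ 0}, w (Sum.inr u) *
          a6T L a e (Pi.single p 1) (Sum.inr u) = α * e p := by
        intro u
        rw [hα u]
        change α * ∑ i, e i * (Pi.single p 1 : ι → ZMod 3) i = α * e p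
        congr 1
        rw [Finset.sum_eq_single p]
        · rw [Pi.single_eq_same, mul_one]
        · intro v _ hv
          rw [Pi.single_eq_of_ne hv, mul_zero]
        · intro h7
          exact absurd (Finset.mem_univ p) h7
      by_cases he : e = 0
      · have h5 : IsEmpty {_u : Unit // e ≠ 0} := ⟨fun u => u.2 he⟩
        rw [Fintype.sum_empty, he]
        simp
      · have h5 : Unique {_u : Unit // e ≠ 0} := ⟨⟨⟨(), he⟩⟩, fun _ => rfl⟩
        rw [Fintype.sum_unique, h4]
    rw [h2, h3] at h1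
    exact h1
  have h4 : w' = 0 ∧ (α = 0 ∨ e = 0) := by
    by_contra hc
    have h5 : w' ≠ 0 ∨ (α ≠ 0 ∧ e ≠ 0) := by
      by_cases hA0 : w' = 0
      · right
        refine ⟨fun h6 => hc ⟨hA0, Or.inl h6⟩, fun h6 => hc ⟨hA0, Or.inr h6⟩⟩
      · exact Or.inl hA0
    obtain ⟨p, hp, h6⟩ := h.ind w' α hA h5
    exact h6 (key p hp)
  funext i
  rcases i with i | u
  · have h5 := hw' i
    rw [h4.1] at h5
    exact neg_eq_zero.mp h5.symm
  · rcases h4.2 with h5 | h5
    · rw [hα u, h5]
      rfl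
    · exact absurd h5 u.2

/-- [SM3-A6a] PROOF. The equations are `T z = 0`, `κ` = the complement of `L` plus (if `e ≠ 0`) one more index, `T z i = Lp a z i + e i z i`, `T z ∗ = ∑ e i z i`. A combination `w` with `∑_i w i T z i = 0` for all `z`: the coefficient of
`z p`, `p ∈ L` (take `z` = the indicator of `p`; for `i ∉ L`: `Lp a z i = a i p`) is `∑_{u ∈ A} a u p + α e p`, `A = {i ∉ L : w i = 1}`, `α = w ∗`; `Gd.ind` gives `w = 0`. `card_ker`. -/
theorem card_Hs {L : Finset ι} {r : ι → ι → Prop} {a : ι → ι → ZMod 3} {e : ι → ZMod 3} (h : Gd L r a e) {δ : ℕ}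
    (hδ : (δ = 1 ∧ e = 0) ∨ (δ = 0 ∧ e ≠ 0)) : (Hs L a e).card * 3 = 3 ^ (L.card + δ) := by
  have h1 := card_ker (a6T L a e) (fun w hw => a6_indep h w hw)
  have h2 : Hs L a e = univ.filter fun z : ι → ZMod 3 => a6T L a e z = 0 := by
    ext z
    rw [a6_mem_Hs, Finset.mem_filter]
    exact ⟨fun h => ⟨Finset.mem_univ _, h⟩, fun h => h.2⟩
  have h3 : (Hs L a e).card * 3 ^ Fintype.card ({i // i ∉ L} ⊕ {_u : Unit // e ≠ 0}) =
      Fintype.card (ι → ZMod 3) := by
    rw [← h1, h2]
  have h4 : Fintype.card (ι → ZMod 3) = 3 ^ Fintype.card ι := by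
    rw [Fintype.card_fun, ZMod.card]
  have h5 : Fintype.card {i // i ∉ L} = Fintype.card ι - L.card := by
    rw [Fintype.card_subtype_compl, Fintype.card_coe]
  have h6 : Fintype.card {_u : Unit // e ≠ 0} = 1 - δ := by
    rcases hδ with ⟨h7, h8⟩ | ⟨h7, h8⟩
    · have h9 : IsEmpty {_u : Unit // e ≠ 0} := ⟨fun u => u.2 h8⟩
      rw [h7, Fintype.card_eq_zero]
    · have h9 : Unique {_u : Unit // e ≠ 0} := ⟨⟨⟨(), h8⟩⟩, fun _ => rfl⟩
      rw [h7, Fintype.card_unique]
  have h7 : L.card ≤ Fintype.card ι := Finset.card_le_univ L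
  rw [Fintype.card_sum, h5, h6, h4] at h3
  have h8 : 0 < 3 ^ (Fintype.card ι - L.card) := by positivity
  apply Nat.eq_of_mul_eq_mul_right h8
  have h9 : 1 - δ + δ = 1 := by
    rcases hδ with ⟨h7, _⟩ | ⟨h7, _⟩ <;> rw [h7]
  calc (Hs L a e).card * 3 * 3 ^ (Fintype.card ι - L.card) =
      (Hs L a e).card * 3 ^ (Fintype.card ι - L.card + (1 - δ)) * 3 ^ δ := by
        rw [mul_assoc, mul_assoc, ← pow_add, ← pow_succ']
        congr 2
        omega
    _ = 3 ^ Fintype.card ι * 3 ^ δ := by rw [h3]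
    _ = 3 ^ (L.card + δ) * 3 ^ (Fintype.card ι - L.card) := by
        rw [← pow_add, ← pow_add]
        congr 1
        omega

/-- [SM3-A6b] the tuples in a subgroup `H` which are dependent together with `1` on `L` are few.
PROOF. A dependent tuple satisfies `∑ β k z k = α` on `L` with `(α, β) ≠ 0`, so (`L` nonempty) `β ≠ 0`; say `β k₀ = 1`. For given `α`, `β` and `z k`, `k ≠ k₀` the vector `z k₀ ∈ H` is determined on `L`, so there are at most
`2^{#ι - #L}` of them. Number of `(α, β)`: `≤ 2^{j+1}`. -/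
theorem card_dep {j : ℕ} {L : Finset ι} (hL : L.Nonempty) (H : Finset (ι → ZMod 3)) :
    (univ.filter fun z : Fin (j + 1) → ι → ZMod 3 => (∀ k, z k ∈ H) ∧ ¬ Ind L z).card ≤
      3 ^ (j + 2) * 3 ^ (Fintype.card ι - L.card) * H.card ^ j := by
  let S : ZMod 3 × (Fin (j + 1) → ZMod 3) → Finset (Fin (j + 1) → ι → ZMod 3) := fun q =>
    univ.filter fun z => (∀ k, z k ∈ H) ∧ ∀ i ∈ L, q.1 + ∑ k, q.2 k * z k i = 0
  let Q : Finset (ZMod 3 × (Fin (j + 1) → ZMod 3)) := univ.filter fun q => q.2 ≠ 0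
  have hsub : (univ.filter fun z : Fin (j + 1) → ι → ZMod 3 => (∀ k, z k ∈ H) ∧ ¬ Ind L z) ⊆
      Q.biUnion S := by
    intro z hz
    obtain ⟨h1, h2⟩ := (Finset.mem_filter.1 hz).2
    unfold Ind at h2
    push Not at h2
    obtain ⟨α, β, h3, h4⟩ := h2
    have h5 : β ≠ 0 := by
      intro hβ
      obtain ⟨p, hp⟩ := hL
      have h6 := h3 p hp
      rw [hβ] at h6
      simp only [Pi.zero_apply, zero_mul, Finset.sum_const_zero, add_zero] at h6
      exact h4 h6 hβ
    exact Finset.mem_biUnion.2 ⟨(α, β), Finset.mem_filter.2 ⟨Finset.mem_univ _, h5⟩,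
      Finset.mem_filter.2 ⟨Finset.mem_univ _, h1, h3⟩⟩
  have hS : ∀ q ∈ Q, (S q).card ≤ 3 ^ (Fintype.card ι - L.card) * H.card ^ j := by
    rintro ⟨α, β⟩ hq
    have hβ : β ≠ 0 := (Finset.mem_filter.1 hq).2
    obtain ⟨k₀, hk₀⟩ : ∃ k₀, β k₀ ≠ 0 := by
      by_contra hc
      push Not at hc
      exact hβ (funext hc)
    have hcard : (Fintype.piFinset (fun _ : Fin j => H) ×ˢ
        (univ : Finset ({i // i ∉ L} → ZMod 3))).card =
        3 ^ (Fintype.card ι - L.card) * H.card ^ j := by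
      rw [Finset.card_product, Fintype.card_piFinset_const, Finset.card_univ, Fintype.card_fun,
        ZMod.card, Fintype.card_subtype_compl, Fintype.card_coe, mul_comm]
    rw [← hcard]
    refine Finset.card_le_card_of_injOn (fun z => (fun k => z (k₀.succAbove k), fun i => z k₀ i))
      ?_ ?_
    · intro z hz
      have h1 := (Finset.mem_filter.1 hz).2
      refine Finset.mem_product.2 ⟨Fintype.mem_piFinset.2 fun k => h1.1 _, Finset.mem_univ _⟩
    · intro z hz z' hz' hzz
      have h1 := (Finset.mem_filter.1 hz).2.2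
      have h1' := (Finset.mem_filter.1 hz').2.2
      have h2 : ∀ k, z (k₀.succAbove k) = z' (k₀.succAbove k) :=
        fun k => congrFun (congrArg Prod.fst hzz) k
      have h3 : ∀ i : {i // i ∉ L}, z k₀ i = z' k₀ i :=
        fun i => congrFun (congrArg Prod.snd hzz) i
      have h4 : z k₀ = z' k₀ := by
        funext i
        by_cases hi : i ∈ L
        · have h5 := h1 i hi
          have h5' := h1' i hi
          simp only at h5 h5'
          rw [Fin.sum_univ_succAbove _ k₀] at h5 h5'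
          simp only [h2] at h5
          have h6 : β k₀ * (z k₀ i - z' k₀ i) = 0 := by linear_combination h5 - h5'
          exact sub_eq_zero.mp ((mul_eq_zero.mp h6).resolve_left hk₀)
        · exact h3 ⟨i, hi⟩
      funext k
      by_cases hk : k = k₀
      · rw [hk, h4]
      · obtain ⟨k', rfl⟩ := Fin.exists_succAbove_eq hk
        exact h2 k'
  have hQ : Q.card ≤ 3 ^ (j + 2) := by
    refine (Finset.card_le_univ Q).trans ?_
    rw [Fintype.card_prod, ZMod.card, Fintype.card_fun, ZMod.card, Fintype.card_fin, ← pow_succ']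
  calc _ ≤ (Q.biUnion S).card := Finset.card_le_card hsub
    _ ≤ Q.card * (3 ^ (Fintype.card ι - L.card) * H.card ^ j) :=
        Finset.card_biUnion_le_card_mul Q S _ hS
    _ ≤ 3 ^ (j + 2) * (3 ^ (Fintype.card ι - L.card) * H.card ^ j) := Nat.mul_le_mul_right _ hQ
    _ = _ := by rw [mul_assoc]

/-- [SM3-A6c] -/
theorem ind_of_Kr {j : ℕ} {L : Finset ι} {r : ι → ι → Prop} {a : ι → ι → ZMod 3} {e : ι → ZMod 3} (h : Gd L r a e)
    (ω : ι → ι → ZMod 3) {z : Fin j → ι → ZMod 3} (hz : ∀ k, z k ∈ Kr (mx L r a ω) e) (hi : Ind univ z) : Ind L z := by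
  intro α β hαβ
  by_contra hc
  let y : ι → ZMod 3 := fun v => α + ∑ k, β k * z k v
  have hy : ∀ v, y v = α + ∑ k, β k * z k v := fun _ => rfl
  have hy0 : y ≠ 0 := fun h1 => hc (hi α β fun i _ => congrFun h1 i)
  obtain ⟨p, hp, h1⟩ := h.ind y α (fun u hu => hαβ u hu) (Or.inl hy0)
  apply h1
  have h2 : Lp (mx L r a ω) y p = ∑ k, β k * Lp (mx L r a ω) (z k) p := a6_Lp_comb _ α β z p
  have h3 : ∀ k, Lp (mx L r a ω) (z k) p = -(e p * z k p) := by
    intro k
    have h4 := (Finset.mem_filter.1 (hz k)).2 p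
    exact eq_neg_of_add_eq_zero_left h4
  have h4 : Lp (mx L r a ω) y p = - ∑ u, y u * a u p := by
    unfold Lp
    rw [← Finset.sum_neg_distrib]
    refine Finset.sum_congr rfl fun v _ => ?_
    have h5 : y p = 0 := hαβ p hp
    rw [h5, zero_sub]
    by_cases h6 : y v = 0
    · rw [h6]
      ring
    · have h7 : v ∉ L := fun h8 => h6 (hαβ v h8)
      have h8 : v ≠ p := fun h9 => h7 (h9 ▸ hp)
      unfold mx
      rw [if_neg fun h9 => h7 h9.2, h.symm v p h8]
      ring
  have h5 : ∑ k, β k * -(e p * z k p) = -(e p * ∑ k, β k * z k p) := by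
    rw [Finset.mul_sum, ← Finset.sum_neg_distrib]
    exact Finset.sum_congr rfl fun k _ => by ring
  have h6 : α + ∑ k, β k * z k p = 0 := hαβ p hp
  simp only [h3] at h2
  rw [h5, h4] at h2
  linear_combination -h2 + e p * h6

/-- [SM3-A6d] PROOF. trivial: `L ⊆ univ`. -/
theorem Ind.univ {j : ℕ} {L : Finset ι} {z : Fin j → ι → ZMod 3} (h : Ind L z) : Ind Finset.univ z := by
  intro α β h1
  exact h α β fun i _ => h1 i (Finset.mem_univ i)

end SM3
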