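import Pool.Agent.SM3.A5
import Pool.Agent.SM3.A6

set_option autoImplicit false

open scoped Classical
open Finset

/-! # [SM3-A7] the mean values of the numbers of tuples -/

namespace SM3

variable {ι : Type} [Fintype ι]

/-- [SM3-A7a] PROOF. Exchange the sums: `∑_ω #(tup j (mx ω) e) = ∑_z [Ind univ z] #{ω : all z k in the kernel}`. Only `z` with `Ind L z` (`ind_of_Kr`; conversely `Ind.univ`) and all `z k ∈ Hs` (`Kr_sub_Hs`) contribute; `card_omega`. -/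
theorem sum_tup {j : ℕ} {L : Finset ι} {r : ι → ι → Prop} {a : ι → ι → ZMod 3} {e : ι → ZMod 3} (h : Gd L r a e)
    (hL : L.Nonempty) :
    (∑ ω : ι → ι → ZMod 3, (tup j (mx L r a ω) e).card) * 3 ^ (j * L.card) =
      3 ^ (j * (j + 1) / 2) * Fintype.card (ι → ι → ZMod 3) *
        (univ.filter fun z : Fin j → ι → ZMod 3 => (∀ k, z k ∈ Hs L a e) ∧ Ind L z).card := by
  have h1 : ∀ ω : ι → ι → ZMod 3, (tup j (mx L r a ω) e).card =
      ∑ z : Fin j → ι → ZMod 3,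
        if (∀ k, z k ∈ Kr (mx L r a ω) e) ∧ Ind univ z then 1 else 0 := by
    intro ω
    unfold tup
    rw [card_filter]
  have h2 : ∀ z : Fin j → ι → ZMod 3,
      (∑ ω : ι → ι → ZMod 3, if (∀ k, z k ∈ Kr (mx L r a ω) e) ∧ Ind univ z then 1 else 0) *
        3 ^ (j * L.card) =
      if (∀ k, z k ∈ Hs L a e) ∧ Ind L z then
        3 ^ (j * (j + 1) / 2) * Fintype.card (ι → ι → ZMod 3) else 0 := by
    intro z
    by_cases hz : (∀ k, z k ∈ Hs L a e) ∧ Ind L z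
    · rw [if_pos hz, ← card_omega h.tour h.symm hL hz.1 hz.2, card_filter]
      congr 1
      refine sum_congr rfl fun ω _ => ?_
      have hu : Ind univ z := hz.2.univ
      by_cases hk : ∀ k, z k ∈ Kr (mx L r a ω) e
      · rw [if_pos ⟨hk, hu⟩, if_pos hk]
      · rw [if_neg (fun hh => hk hh.1), if_neg hk]
    · rw [if_neg hz]
      have h3 : (∑ ω : ι → ι → ZMod 3,
          if (∀ k, z k ∈ Kr (mx L r a ω) e) ∧ Ind univ z then 1 else 0) = 0 := by
        refine sum_eq_zero fun ω _ => ?_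
        rw [if_neg]
        rintro ⟨hk, hu⟩
        exact hz ⟨fun k => Kr_sub_Hs h.tour h.symm ω (hk k), ind_of_Kr h ω hk hu⟩
      rw [h3, zero_mul]
  calc (∑ ω : ι → ι → ZMod 3, (tup j (mx L r a ω) e).card) * 3 ^ (j * L.card)
      = (∑ ω : ι → ι → ZMod 3, ∑ z : Fin j → ι → ZMod 3,
        if (∀ k, z k ∈ Kr (mx L r a ω) e) ∧ Ind univ z then 1 else 0) * 3 ^ (j * L.card) := by
        rw [sum_congr rfl fun ω _ => h1 ω]
    _ = ∑ z : Fin j → ι → ZMod 3, (∑ ω : ι → ι → ZMod 3,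
        if (∀ k, z k ∈ Kr (mx L r a ω) e) ∧ Ind univ z then 1 else 0) * 3 ^ (j * L.card) := by
        rw [sum_comm, sum_mul]
    _ = ∑ z : Fin j → ι → ZMod 3, if (∀ k, z k ∈ Hs L a e) ∧ Ind L z then
        3 ^ (j * (j + 1) / 2) * Fintype.card (ι → ι → ZMod 3) else 0 :=
        sum_congr rfl fun z _ => h2 z
    _ = _ := by
        rw [← sum_filter, sum_const, smul_eq_mul, mul_comm]

theorem a7_tri (j : ℕ) : j * (j + 1) / 2 = j * (j - 1) / 2 + j := by
  rcases j with _ | j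
  · rfl
  · have e1 : (j + 1) * (j + 1 + 1) = (j + 1) * j + (j + 1) * 2 := by ring
    rw [Nat.add_sub_cancel, e1, Nat.add_mul_div_right _ _ (by norm_num)]

theorem a7_card_pow {j : ℕ} (H : Finset (ι → ZMod 3)) :
    (univ.filter fun z : Fin j → ι → ZMod 3 => ∀ k, z k ∈ H).card = H.card ^ j := by
  have h1 : (univ.filter fun z : Fin j → ι → ZMod 3 => ∀ k, z k ∈ H) =
      Fintype.piFinset (fun _ : Fin j => H) := by
    ext z
    simp [Fintype.mem_piFinset]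
  rw [h1, Fintype.card_piFinset]
  simp

theorem a7_real {j : ℕ} {L : Finset ι} {r : ι → ι → Prop} {a : ι → ι → ZMod 3} {e : ι → ZMod 3}
    (h : Gd L r a e) (hL : L.Nonempty) :
    ((∑ ω : ι → ι → ZMod 3, (tup j (mx L r a ω) e).card : ℕ) : ℝ) * 3 ^ (j * L.card) =
      3 ^ (j * (j - 1) / 2) * 3 ^ j * (Fintype.card (ι → ι → ZMod 3) : ℝ) *
        ((univ.filter fun z : Fin j → ι → ZMod 3 => (∀ k, z k ∈ Hs L a e) ∧ Ind L z).card : ℝ) := by
  have h1 := sum_tup (j := j) h hL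
  rw [a7_tri, pow_add] at h1
  exact_mod_cast h1

/-- [SM3-A7b] PROOF. `sum_tup`, and `#{z ∈ Hs^j : Ind L z} ≤ #Hs^j = 2^{(#L + δ - 1) j}` (`card_Hs`); exponents: `j (j + 1)/2 + (#L + δ - 1) j - j #L = j (j - 1)/2 + δ j`. -/
theorem mean_le {j : ℕ} {L : Finset ι} {r : ι → ι → Prop} {a : ι → ι → ZMod 3} {e : ι → ZMod 3} (h : Gd L r a e)
    {δ : ℕ} (hδ : (δ = 1 ∧ e = 0) ∨ (δ = 0 ∧ e ≠ 0)) (hL : L.Nonempty) :
    ((∑ ω : ι → ι → ZMod 3, (tup j (mx L r a ω) e).card : ℕ) : ℝ) ≤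
      3 ^ (j * (j - 1) / 2) * 3 ^ (δ * j) * Fintype.card (ι → ι → ZMod 3) := by
  have h1 := a7_real (j := j) h hL
  have h2 : ((univ.filter fun z : Fin j → ι → ZMod 3 =>
      (∀ k, z k ∈ Hs L a e) ∧ Ind L z).card : ℝ) ≤ ((Hs L a e).card : ℝ) ^ j := by
    have h3 : (univ.filter fun z : Fin j → ι → ZMod 3 =>
      (∀ k, z k ∈ Hs L a e) ∧ Ind L z).card ≤ (Hs L a e).card ^ j := by
      rw [← a7_card_pow]
      refine card_le_card fun z hz => ?_
      rw [mem_filter] at hz ⊢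
      exact ⟨hz.1, hz.2.1⟩
    exact_mod_cast h3
  have h4 : ((Hs L a e).card : ℝ) * 3 = 3 ^ L.card * 3 ^ δ := by
    have := card_Hs h hδ
    rw [pow_add] at this
    exact_mod_cast this
  have h5 : ((Hs L a e).card : ℝ) ^ j * 3 ^ j = 3 ^ (j * L.card) * 3 ^ (δ * j) := by
    rw [← mul_pow, h4, mul_pow, ← pow_mul, ← pow_mul, mul_comm j]
  have hpos : (0 : ℝ) < 3 ^ (j * L.card) := by positivity
  refine le_of_mul_le_mul_right ?_ hpos
  rw [h1]
  calc 3 ^ (j * (j - 1) / 2) * 3 ^ j * (Fintype.card (ι → ι → ZMod 3) : ℝ) *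
        ((univ.filter fun z : Fin j → ι → ZMod 3 => (∀ k, z k ∈ Hs L a e) ∧ Ind L z).card : ℝ)
      ≤ 3 ^ (j * (j - 1) / 2) * 3 ^ j * (Fintype.card (ι → ι → ZMod 3) : ℝ) *
        ((Hs L a e).card : ℝ) ^ j := mul_le_mul_of_nonneg_left h2 (by positivity)
    _ = 3 ^ (j * (j - 1) / 2) * (Fintype.card (ι → ι → ZMod 3) : ℝ) *
        (((Hs L a e).card : ℝ) ^ j * 3 ^ j) := by ring
    _ = _ := by rw [h5]; ring

/-- [SM3-A7c] PROOF. `sum_tup`, and for `j ≥ 1`: `#{z ∈ Hs^j : Ind L z} ≥ #Hs^j - 2^{j + 1} 2^{#ι - #L} #Hs^{j-1}` (`card_dep` with `j - 1`), `#Hs = 2^{#L + δ - 1} ≥ 2^{#L - 1}`, so this is `≥ #Hs^j (1 - 2^{j + 2 + (#ι - #L) - #L})`;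
`j = 0`: equality. Here `j ≤ 7`, `j + 2 + (#ι - #L) - #L ≤ 9 - 22`. -/
theorem mean_ge {j : ℕ} (hj : j ≤ 3) {L : Finset ι} {r : ι → ι → Prop} {a : ι → ι → ZMod 3} {e : ι → ZMod 3} (h : Gd L r a e)
    {δ : ℕ} (hδ : (δ = 1 ∧ e = 0) ∨ (δ = 0 ∧ e ≠ 0)) (hL : Fintype.card ι - L.card + 14 ≤ L.card) :
    3 ^ (j * (j - 1) / 2) * 3 ^ (δ * j) * (1 - 1 / 3 ^ 9) * (Fintype.card (ι → ι → ZMod 3) : ℝ) ≤
      ((∑ ω : ι → ι → ZMod 3, (tup j (mx L r a ω) e).card : ℕ) : ℝ) := by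
  have hLn : L.Nonempty := by
    rw [← card_pos]
    omega
  have h1 := a7_real (j := j) h hLn
  have h4 : ((Hs L a e).card : ℝ) * 3 = 3 ^ L.card * 3 ^ δ := by
    have := card_Hs h hδ
    rw [pow_add] at this
    exact_mod_cast this
  have h5 : ((Hs L a e).card : ℝ) ^ j * 3 ^ j = 3 ^ (j * L.card) * 3 ^ (δ * j) := by
    rw [← mul_pow, h4, mul_pow, ← pow_mul, ← pow_mul, mul_comm j]
  have key : ((Hs L a e).card : ℝ) ^ j * (1 - 1 / 3 ^ 9) ≤
      ((univ.filter fun z : Fin j → ι → ZMod 3 => (∀ k, z k ∈ Hs L a e) ∧ Ind L z).card : ℝ) := by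
    rcases j with _ | j
    · have h6 : (univ.filter fun z : Fin 0 → ι → ZMod 3 => (∀ k, z k ∈ Hs L a e) ∧ Ind L z).card = 1 := by
        rw [filter_true_of_mem]
        · simp
        · intro z _
          refine ⟨fun k => k.elim0, ?_⟩
          intro α β hαβ
          obtain ⟨i, hi⟩ := hLn
          have h7 := hαβ i hi
          simp only [univ_eq_empty, sum_empty, add_zero] at h7
          exact ⟨h7, funext fun k => k.elim0⟩
      rw [h6]
      norm_num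
    · have h6 : (univ.filter fun z : Fin (j + 1) → ι → ZMod 3 =>
            (∀ k, z k ∈ Hs L a e) ∧ Ind L z).card +
          (univ.filter fun z : Fin (j + 1) → ι → ZMod 3 =>
            (∀ k, z k ∈ Hs L a e) ∧ ¬ Ind L z).card = (Hs L a e).card ^ (j + 1) := by
        rw [← a7_card_pow, ← card_filter_add_card_filter_not
          (s := univ.filter fun z : Fin (j + 1) → ι → ZMod 3 => ∀ k, z k ∈ Hs L a e)
          (fun z => Ind L z), filter_filter, filter_filter]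
      have h7 := card_dep (j := j) hLn (Hs L a e)
      have h6' : ((univ.filter fun z : Fin (j + 1) → ι → ZMod 3 =>
            (∀ k, z k ∈ Hs L a e) ∧ Ind L z).card : ℝ) +
          ((univ.filter fun z : Fin (j + 1) → ι → ZMod 3 =>
            (∀ k, z k ∈ Hs L a e) ∧ ¬ Ind L z).card : ℝ) = ((Hs L a e).card : ℝ) ^ (j + 1) := by
        exact_mod_cast h6
      have h7' : ((univ.filter fun z : Fin (j + 1) → ι → ZMod 3 =>
            (∀ k, z k ∈ Hs L a e) ∧ ¬ Ind L z).card : ℝ) ≤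
          3 ^ (j + 2) * 3 ^ (Fintype.card ι - L.card) * ((Hs L a e).card : ℝ) ^ j := by
        exact_mod_cast h7
      have hH : (3 : ℝ) ^ (j + 2) * 3 ^ (Fintype.card ι - L.card) ≤ ((Hs L a e).card : ℝ) * (1 / 3 ^ 9) := by
        have h8 : (3 : ℝ) ^ (j + 2) * 3 ^ (Fintype.card ι - L.card) * 3 ^ 10 ≤ 3 ^ L.card := by
          rw [← pow_add, ← pow_add]
          exact pow_le_pow_right₀ (by norm_num) (by omega)
        have h9 : (3 : ℝ) ^ L.card ≤ ((Hs L a e).card : ℝ) * 3 := by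
          rw [h4]
          have h10 : (1 : ℝ) ≤ 3 ^ δ := one_le_pow₀ (by norm_num)
          have h11 : (0 : ℝ) ≤ 3 ^ L.card := by positivity
          nlinarith
        rw [mul_one_div, le_div_iff₀ (by positivity)]
        have e14 : (3 : ℝ) ^ 10 = 3 ^ 9 * 3 := by norm_num
        rw [e14] at h8
        nlinarith
      have hHj : (0 : ℝ) ≤ ((Hs L a e).card : ℝ) ^ j := by positivity
      have h12 : 3 ^ (j + 2) * 3 ^ (Fintype.card ι - L.card) * ((Hs L a e).card : ℝ) ^ j ≤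
          ((Hs L a e).card : ℝ) * (1 / 3 ^ 9) * ((Hs L a e).card : ℝ) ^ j :=
        mul_le_mul_of_nonneg_right hH hHj
      have e2 : ((Hs L a e).card : ℝ) ^ (j + 1) = ((Hs L a e).card : ℝ) * ((Hs L a e).card : ℝ) ^ j := by
        rw [pow_succ, mul_comm]
      rw [e2] at h6' ⊢
      linarith
  have hpos : (0 : ℝ) < 3 ^ (j * L.card) := by positivity
  refine le_of_mul_le_mul_right ?_ hpos
  rw [h1]
  calc 3 ^ (j * (j - 1) / 2) * 3 ^ (δ * j) * (1 - 1 / 3 ^ 9) *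
        (Fintype.card (ι → ι → ZMod 3) : ℝ) * 3 ^ (j * L.card)
      = 3 ^ (j * (j - 1) / 2) * (1 - 1 / 3 ^ 9) * (Fintype.card (ι → ι → ZMod 3) : ℝ) *
        (3 ^ (j * L.card) * 3 ^ (δ * j)) := by ring
    _ = 3 ^ (j * (j - 1) / 2) * 3 ^ j * (Fintype.card (ι → ι → ZMod 3) : ℝ) *
        (((Hs L a e).card : ℝ) ^ j * (1 - 1 / 3 ^ 9)) := by rw [← h5]; ring
    _ ≤ _ := mul_le_mul_of_nonneg_left key (by positivity)

end SM3
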