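import Pool.Agent.SM3.Defs

set_option autoImplicit false

open scoped Classical
open Finset

/-! # [SM3-A8] from the number of tuples to the size of the kernel -/

namespace SM3

variable {ι : Type} [Fintype ι]

/-- the equations of the kernel as a linear map -/
noncomputable def a8_M (b : ι → ι → ZMod 3) (e : ι → ZMod 3) :
    (ι → ZMod 3) →ₗ[ZMod 3] (ι → ZMod 3) where
  toFun := fun z i => Lp b z i + e i * z i
  map_add' := by
    intro z z'
    funext i
    simp only [Lp, Pi.add_apply]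
    have : ∑ v, b i v * (z i + z' i - (z v + z' v)) =
        ∑ v, b i v * (z i - z v) + ∑ v, b i v * (z' i - z' v) := by
      rw [← Finset.sum_add_distrib]
      apply Finset.sum_congr rfl
      intro v _
      ring
    rw [this]
    ring
  map_smul' := by
    intro c z
    funext i
    simp only [Lp, Pi.smul_apply, smul_eq_mul, RingHom.id_apply]
    have : ∑ v, b i v * (c * z i - c * z v) = c * ∑ v, b i v * (z i - z v) := by
      rw [Finset.mul_sum]
      apply Finset.sum_congr rfl
      intro v _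
      ring
    rw [this]
    ring

theorem a8_mem {b : ι → ι → ZMod 3} {e : ι → ZMod 3} {z : ι → ZMod 3} :
    z ∈ Kr b e ↔ z ∈ LinearMap.ker (a8_M b e) := by
  rw [LinearMap.mem_ker]
  unfold Kr
  rw [mem_filter]
  constructor
  · rintro ⟨_, h⟩
    funext i
    exact h i
  · intro h
    exact ⟨mem_univ _, fun i => congrFun h i⟩

/-- [SM3-A8a] the kernel is a vector space. -/
theorem card_Kr (b : ι → ι → ZMod 3) (e : ι → ZMod 3) : ∃ s : ℕ, (Kr b e).card = 3 ^ s := by
  refine ⟨Module.finrank (ZMod 3) (LinearMap.ker (a8_M b e)), ?_⟩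
  have h1 : Fintype.card (LinearMap.ker (a8_M b e)) = (Kr b e).card := by
    rw [← Fintype.card_coe]
    exact Fintype.card_congr (Equiv.subtypeEquivRight fun z => a8_mem.symm)
  rw [← h1, Module.card_eq_pow_finrank (K := ZMod 3) (V := LinearMap.ker (a8_M b e)), ZMod.card]

/-- [SM3-A8b] the constant `c` is in the kernel iff `c = 0` or `e = 0`. -/
theorem const_mem_Kr (b : ι → ι → ZMod 3) (e : ι → ZMod 3) (c : ZMod 3) :
    (fun _ : ι => c) ∈ Kr b e ↔ c = 0 ∨ e = 0 := by
  have h1 : ∀ i, Lp b (fun _ : ι => c) i + e i * c = e i * c := by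
    intro i
    unfold Lp
    simp only [sub_self, mul_zero, Finset.sum_const_zero, zero_add]
  unfold Kr
  rw [mem_filter]
  constructor
  · rintro ⟨_, h⟩
    by_cases hc : c = 0
    · exact Or.inl hc
    · right
      funext i
      have h2 := h i
      rw [h1 i] at h2
      exact (mul_eq_zero.mp h2).resolve_right hc
  · intro h
    refine ⟨mem_univ _, fun i => ?_⟩
    rw [h1 i]
    rcases h with h | h
    · rw [h, mul_zero]
    · rw [h, Pi.zero_apply, zero_mul]

theorem a8_zero_mem (b : ι → ι → ZMod 3) (e : ι → ZMod 3) : (0 : ι → ZMod 3) ∈ Kr b e :=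
  a8_mem.mpr (Submodule.zero_mem _)

/-- combinations -/
def a8_cb {j : ℕ} (z : Fin j → ι → ZMod 3) (p : ZMod 3 × (Fin j → ZMod 3)) : ι → ZMod 3 :=
  fun i => p.1 + ∑ k, p.2 k * z k i

omit [Fintype ι] in
theorem a8_cb_eq {j : ℕ} (z : Fin j → ι → ZMod 3) (p : ZMod 3 × (Fin j → ZMod 3)) :
    a8_cb z p = (fun _ : ι => p.1) + ∑ k, p.2 k • z k := by
  funext i
  simp only [a8_cb, Pi.add_apply, Pi.smul_apply, smul_eq_mul, Finset.sum_apply]

theorem a8_cb_inj {j : ℕ} {z : Fin j → ι → ZMod 3} (h : Ind univ z) :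
    Function.Injective (a8_cb z) := by
  intro p q hpq
  have h1 := h (p.1 - q.1) (p.2 - q.2) (by
    intro i _
    have h2 := congrFun hpq i
    unfold a8_cb at h2
    have h3 : ∑ k, (p.2 - q.2) k * z k i = ∑ k, p.2 k * z k i - ∑ k, q.2 k * z k i := by
      rw [← Finset.sum_sub_distrib]
      apply Finset.sum_congr rfl
      intro k _
      rw [Pi.sub_apply, sub_mul]
    rw [h3]
    linear_combination h2)
  have h5 : p.1 = q.1 := sub_eq_zero.mp h1.1
  have h6 : p.2 = q.2 := sub_eq_zero.mp h1.2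
  exact Prod.ext h5 h6

/-- adding one vector -/
theorem a8_ind_snoc {j : ℕ} {z : Fin j → ι → ZMod 3} {x : ι → ZMod 3} :
    Ind univ (Fin.snoc z x : Fin (j + 1) → ι → ZMod 3) ↔
      Ind univ z ∧ ∀ p, a8_cb z p ≠ x := by
  constructor
  · intro h
    constructor
    · intro α β hαβ
      have h1 := h α (Fin.snoc β 0) (by
        intro i hi
        rw [Fin.sum_univ_castSucc]
        simp only [Fin.snoc_castSucc, Fin.snoc_last, zero_mul, add_zero]
        exact hαβ i hi)
      refine ⟨h1.1, ?_⟩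
      funext k
      have h2 := congrFun h1.2 (Fin.castSucc k)
      rw [Fin.snoc_castSucc] at h2
      exact h2
    · intro p hp
      have h1 := h p.1 (Fin.snoc p.2 (-1)) (by
        intro i hi
        rw [Fin.sum_univ_castSucc]
        simp only [Fin.snoc_castSucc, Fin.snoc_last]
        rw [← hp]
        unfold a8_cb
        ring)
      have h2 := congrFun h1.2 (Fin.last j)
      rw [Fin.snoc_last] at h2
      rw [Pi.zero_apply] at h2
      exact absurd h2 (by decide)
  · rintro ⟨h1, h2⟩ α β hαβ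
    have h3 : ∀ i, α + ∑ k : Fin j, β (Fin.castSucc k) * z k i + β (Fin.last j) * x i = 0 := by
      intro i
      have := hαβ i (mem_univ _)
      rw [Fin.sum_univ_castSucc] at this
      simp only [Fin.snoc_castSucc, Fin.snoc_last] at this
      rw [add_assoc]
      exact this
    by_cases h4 : β (Fin.last j) = 0
    · have h5 := h1 α (fun k => β (Fin.castSucc k)) (by
        intro i _
        have := h3 i
        rw [h4, zero_mul, add_zero] at this
        exact this)
      refine ⟨h5.1, ?_⟩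
      funext k
      refine Fin.lastCases ?_ (fun k => ?_) k
      · exact h4
      · exact congrFun h5.2 k
    · exfalso
      refine h2 (-(β (Fin.last j))⁻¹ * α, fun k => -(β (Fin.last j))⁻¹ * β (Fin.castSucc k)) ?_
      funext i
      have h5 := h3 i
      unfold a8_cb
      simp only
      have h6 : ∑ k, -(β (Fin.last j))⁻¹ * β (Fin.castSucc k) * z k i =
          -(β (Fin.last j))⁻¹ * ∑ k : Fin j, β (Fin.castSucc k) * z k i := by
        rw [Finset.mul_sum]
        exact Finset.sum_congr rfl fun k _ => by ring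
      rw [h6]
      have h7 : (β (Fin.last j))⁻¹ * β (Fin.last j) = 1 := inv_mul_cancel₀ h4
      linear_combination -(β (Fin.last j))⁻¹ * h5 + x i * h7

theorem a8_cb_mem {b : ι → ι → ZMod 3} {e : ι → ZMod 3} {j : ℕ} {z : Fin j → ι → ZMod 3}
    (hz : ∀ k, z k ∈ Kr b e) (p : ZMod 3 × (Fin j → ZMod 3)) :
    a8_cb z p ∈ Kr b e ↔ p.1 = 0 ∨ e = 0 := by
  have h1 : ∑ k, p.2 k • z k ∈ LinearMap.ker (a8_M b e) :=
    Submodule.sum_mem _ fun k _ => Submodule.smul_mem _ _ (a8_mem.mp (hz k))
  rw [a8_mem, a8_cb_eq, Submodule.add_mem_iff_left _ h1, ← a8_mem, const_mem_Kr]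

theorem a8_count {b : ι → ι → ZMod 3} {e : ι → ZMod 3} {δ : ℕ}
    (hδ : (δ = 1 ∧ e = 0) ∨ (δ = 0 ∧ e ≠ 0)) {j : ℕ} {z : Fin j → ι → ZMod 3}
    (hz : ∀ k, z k ∈ Kr b e) (hi : Ind univ z) :
    ((Kr b e).filter fun x => ∃ p, a8_cb z p = x).card = 3 ^ (j + δ) := by
  have h1 : ((Kr b e).filter fun x => ∃ p, a8_cb z p = x) =
      (univ.filter fun p : ZMod 3 × (Fin j → ZMod 3) => p.1 = 0 ∨ e = 0).image (a8_cb z) := by
    ext x
    rw [mem_filter, mem_image]
    constructor
    · rintro ⟨hx, p, rfl⟩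
      exact ⟨p, mem_filter.mpr ⟨mem_univ _, (a8_cb_mem hz p).mp hx⟩, rfl⟩
    · rintro ⟨p, hp, rfl⟩
      exact ⟨(a8_cb_mem hz p).mpr (mem_filter.mp hp).2, p, rfl⟩
  rw [h1, card_image_of_injective _ (a8_cb_inj hi)]
  rcases hδ with ⟨rfl, he⟩ | ⟨rfl, he⟩
  · have h2 : (univ.filter fun p : ZMod 3 × (Fin j → ZMod 3) => p.1 = 0 ∨ e = 0) = univ := by
      rw [filter_eq_self]
      intro p _
      exact Or.inr he
    rw [h2, card_univ, Fintype.card_prod, ZMod.card, Fintype.card_fun, ZMod.card, Fintype.card_fin,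
      pow_succ]
    ring
  · have h2 : (univ.filter fun p : ZMod 3 × (Fin j → ZMod 3) => p.1 = 0 ∨ e = 0) =
        ({0} : Finset (ZMod 3)) ×ˢ (univ : Finset (Fin j → ZMod 3)) := by
      ext p
      rw [mem_filter, mem_product, mem_singleton]
      constructor
      · rintro ⟨_, h | h⟩
        · exact ⟨h, mem_univ _⟩
        · exact absurd h he
      · rintro ⟨h, _⟩
        exact ⟨mem_univ _, Or.inl h⟩
    rw [h2, card_product, card_singleton, card_univ, Fintype.card_fun, ZMod.card, Fintype.card_fin,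
      one_mul, add_zero]

theorem a8_step {b : ι → ι → ZMod 3} {e : ι → ZMod 3} {δ : ℕ}
    (hδ : (δ = 1 ∧ e = 0) ∨ (δ = 0 ∧ e ≠ 0)) (j : ℕ) :
    ((tup (j + 1) b e).card : ℝ) = (tup j b e).card * ((Kr b e).card - 3 ^ (j + δ) : ℝ) := by
  have hmaps : ∀ y ∈ tup (j + 1) b e, Fin.init y ∈ tup j b e := by
    intro y hy
    unfold tup at hy ⊢
    rw [mem_filter] at hy ⊢
    refine ⟨mem_univ _, fun k => hy.2.1 (Fin.castSucc k), ?_⟩
    have h1 := hy.2.2
    rw [← Fin.snoc_init_self y, a8_ind_snoc] at h1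
    exact h1.1
  rw [Finset.card_eq_sum_card_fiberwise (f := Fin.init) (t := tup j b e)
    (fun y hy => Finset.mem_coe.mpr (hmaps y (Finset.mem_coe.mp hy)))]
  push_cast
  have hfib : ∀ z ∈ tup j b e,
      (((tup (j + 1) b e).filter fun y => Fin.init y = z).card : ℝ) =
        ((Kr b e).card - 3 ^ (j + δ) : ℝ) := by
    intro z hz
    unfold tup at hz
    rw [mem_filter] at hz
    obtain ⟨_, hzK, hzI⟩ := hz
    have h1 : ((tup (j + 1) b e).filter fun y => Fin.init y = z) =
        ((Kr b e).filter fun x => ¬ ∃ p, a8_cb z p = x).image (fun x => Fin.snoc z x) := by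
      ext y
      rw [mem_filter, mem_image]
      constructor
      · rintro ⟨hy, rfl⟩
        unfold tup at hy
        rw [mem_filter] at hy
        obtain ⟨_, hyK, hyI⟩ := hy
        refine ⟨y (Fin.last j), ?_, Fin.snoc_init_self y⟩
        rw [mem_filter]
        refine ⟨hyK _, ?_⟩
        rw [← Fin.snoc_init_self y, a8_ind_snoc] at hyI
        rintro ⟨p, hp⟩
        exact hyI.2 p hp
      · rintro ⟨x, hx, rfl⟩
        rw [mem_filter] at hx
        refine ⟨?_, Fin.init_snoc _ _⟩
        unfold tup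
        rw [mem_filter]
        refine ⟨mem_univ _, ?_, ?_⟩
        · intro k
          refine Fin.lastCases ?_ (fun k => ?_) k
          · rw [Fin.snoc_last]; exact hx.1
          · rw [Fin.snoc_castSucc]; exact hzK k
        · rw [a8_ind_snoc]
          exact ⟨hzI, fun p hp => hx.2 ⟨p, hp⟩⟩
    have h2 : Function.Injective (fun x : ι → ZMod 3 => (Fin.snoc z x : Fin (j + 1) → ι → ZMod 3)) := by
      intro x x' h
      have := congrFun h (Fin.last j)
      simpa using this
    rw [h1, card_image_of_injective _ h2]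
    have h3 := Finset.card_filter_add_card_filter_not (s := Kr b e) (fun x => ∃ p, a8_cb z p = x)
    rw [a8_count hδ hzK hzI] at h3
    have h4 : (((Kr b e).filter fun x => ¬ ∃ p, a8_cb z p = x).card : ℝ) + 3 ^ (j + δ) =
        (Kr b e).card := by
      rw [← h3]
      push_cast
      ring
    linarith
  rw [Finset.sum_congr rfl hfib, Finset.sum_const, nsmul_eq_mul]

/-- [SM3-A8c] -/
theorem card_tup (b : ι → ι → ZMod 3) (e : ι → ZMod 3) [Nonempty ι] {δ : ℕ}
    (hδ : (δ = 1 ∧ e = 0) ∨ (δ = 0 ∧ e ≠ 0)) (j : ℕ) :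
    ((tup j b e).card : ℝ) = ∏ i ∈ range j, ((Kr b e).card - 3 ^ (i + δ) : ℝ) := by
  induction j with
  | zero =>
    rw [range_zero, prod_empty]
    have h1 : tup 0 b e = univ := by
      unfold tup
      rw [filter_eq_self]
      intro z _
      refine ⟨fun k => k.elim0, ?_⟩
      intro α β h
      obtain ⟨i⟩ := (inferInstance : Nonempty ι)
      have h2 := h i (mem_univ _)
      rw [Fin.sum_univ_zero, add_zero] at h2
      exact ⟨h2, funext fun k => k.elim0⟩
    rw [h1, card_univ]
    simp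
  | succ j ih =>
    rw [a8_step hδ, prod_range_succ, ih]

/-- [SM3-A8d] -/
theorem q_formula (X : ℝ) : ∑ j ∈ range 4, (-1) ^ j * (∏ i ∈ range j, (X - 3 ^ i)) / ∏ i ∈ range j, ((3 : ℝ) ^ (i + 1) - 1) =
    ∏ i ∈ range 3, ((3 : ℝ) ^ (i + 1) - X) / (3 ^ (i + 1) - 1) := by
  simp only [Finset.sum_range_succ, Finset.prod_range_succ, Finset.prod_range_zero,
    Finset.sum_range_zero]
  norm_num
  ring

/-- [SM3-A8] PROOF. Let `#K = 3^s` and `X = 3^s / 3^δ`. By `card_tup` the left side is `q_formula`: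
`1` if `X = 1`, `0` if `X = 3^t`, `1 ≤ t ≤ 3`, negative if `t ≥ 4` (three negative factors). And `X = 1` iff `MinK`. -/
theorem indicator_ge (b : ι → ι → ZMod 3) (e : ι → ZMod 3) [Nonempty ι] {δ : ℕ}
    (hδ : (δ = 1 ∧ e = 0) ∨ (δ = 0 ∧ e ≠ 0)) :
    ∑ j ∈ range 4, (-1) ^ j * ((tup j b e).card : ℝ) / (3 ^ (δ * j) * ∏ i ∈ range j, ((3 : ℝ) ^ (i + 1) - 1)) ≤
      if MinK b e then 1 else 0 := by
  obtain ⟨s, hs⟩ := card_Kr b e
  have hinj : Function.Injective (fun (c : ZMod 3) (_ : ι) => c) := by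
    intro c c' h
    obtain ⟨i⟩ := (inferInstance : Nonempty ι)
    exact congrFun h i
  have hcc : (univ.image (fun (c : ZMod 3) (_ : ι) => c)).card = 3 := by
    rw [card_image_of_injective _ hinj, card_univ, ZMod.card]
  have hsub : δ = 1 → univ.image (fun (c : ZMod 3) (_ : ι) => c) ⊆ Kr b e := by
    intro h x hx
    rw [mem_image] at hx
    obtain ⟨c, _, rfl⟩ := hx
    rw [const_mem_Kr]
    rcases hδ with h' | h'
    · exact Or.inr h'.2
    · omega
  have hsδ : δ ≤ s := by
    rcases hδ with ⟨h, he⟩ | ⟨h, he⟩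
    · have h1 := card_le_card (hsub h)
      rw [hcc, hs] at h1
      by_contra hcon
      have : s = 0 := by omega
      rw [this] at h1
      norm_num at h1
    · omega
  obtain ⟨t, rfl⟩ := Nat.exists_eq_add_of_le hsδ
  set X : ℝ := 3 ^ t with hX
  have hsum : ∑ j ∈ range 4, (-1) ^ j * ((tup j b e).card : ℝ) /
      (3 ^ (δ * j) * ∏ i ∈ range j, ((3 : ℝ) ^ (i + 1) - 1)) =
      ∏ i ∈ range 3, ((3 : ℝ) ^ (i + 1) - X) / (3 ^ (i + 1) - 1) := by
    rw [← q_formula]
    apply Finset.sum_congr rfl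
    intro j _
    have h1 : ((tup j b e).card : ℝ) = 3 ^ (δ * j) * ∏ i ∈ range j, (X - 3 ^ i) := by
      rw [card_tup b e hδ j, hs]
      have h2 : ∀ i ∈ range j, (((3 ^ (δ + t) : ℕ) : ℝ) - 3 ^ (i + δ)) = 3 ^ δ * (X - 3 ^ i) := by
        intro i _
        push_cast
        rw [hX, pow_add, pow_add]
        ring
      rw [Finset.prod_congr rfl h2, Finset.prod_mul_distrib, Finset.prod_const, card_range,
        ← pow_mul]
    rw [h1]
    have h3 : (3 : ℝ) ^ (δ * j) ≠ 0 := by positivity
    rw [show (-1 : ℝ) ^ j * (3 ^ (δ * j) * ∏ i ∈ range j, (X - 3 ^ i)) =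
      3 ^ (δ * j) * ((-1 : ℝ) ^ j * ∏ i ∈ range j, (X - 3 ^ i)) by ring]
    rw [mul_div_mul_left _ _ h3]
  rw [hsum]
  have hden : ∀ i : ℕ, (0 : ℝ) < 3 ^ (i + 1) - 1 := by
    intro i
    have : (1 : ℝ) < 3 ^ (i + 1) := one_lt_pow₀ (by norm_num) (by omega)
    linarith
  rcases Nat.eq_zero_or_pos t with ht | ht
  · -- minimal kernel
    have hMin : MinK b e := by
      rcases hδ with ⟨h, he⟩ | ⟨h, he⟩
      · refine ⟨fun h' => absurd he h', fun _ z hz => ?_⟩
        have h1 : univ.image (fun (c : ZMod 3) (_ : ι) => c) = Kr b e := by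
          apply Finset.eq_of_subset_of_card_le (hsub h)
          rw [hs, hcc, h, ht]
          norm_num
        rw [← h1, mem_image] at hz
        obtain ⟨c, _, rfl⟩ := hz
        exact ⟨c, fun _ => rfl⟩
      · refine ⟨fun _ z hz => ?_, fun h' => absurd h' he⟩
        rw [h, ht] at hs
        have h1 : (Kr b e).card ≤ 1 := by rw [hs]; norm_num
        exact Finset.card_le_one.mp h1 z hz 0 (a8_zero_mem b e)
    rw [if_pos hMin]
    apply le_of_eq
    apply Finset.prod_eq_one
    intro i _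
    rw [hX, ht, pow_zero]
    exact div_self (hden i).ne'
  · have hle : ∏ i ∈ range 3, ((3 : ℝ) ^ (i + 1) - X) / (3 ^ (i + 1) - 1) ≤ 0 := by
      rcases Nat.lt_or_ge t 4 with h8 | h8
      · apply le_of_eq
        apply Finset.prod_eq_zero (i := t - 1)
        · rw [mem_range]; omega
        · rw [Nat.sub_add_cancel ht, hX, sub_self, zero_div]
      · have h1 : ∏ i ∈ range 3, ((3 : ℝ) ^ (i + 1) - X) / (3 ^ (i + 1) - 1) =
            -∏ i ∈ range 3, (X - (3 : ℝ) ^ (i + 1)) / (3 ^ (i + 1) - 1) := by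
          have h2 : ∀ i ∈ range 3, ((3 : ℝ) ^ (i + 1) - X) / (3 ^ (i + 1) - 1) =
              (-1) * ((X - (3 : ℝ) ^ (i + 1)) / (3 ^ (i + 1) - 1)) := by
            intro i _
            ring
          rw [Finset.prod_congr rfl h2, Finset.prod_mul_distrib, Finset.prod_const, card_range]
          norm_num
        rw [h1, neg_nonpos]
        apply Finset.prod_nonneg
        intro i hi
        rw [mem_range] at hi
        apply div_nonneg _ (hden i).le
        rw [sub_nonneg, hX]
        exact pow_le_pow_right₀ (by norm_num) (by omega)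
    refine hle.trans ?_
    split_ifs
    · norm_num
    · exact le_refl _

end SM3
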