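import Pool.Agent.SM3.A7
import Pool.Agent.SM3.A8

set_option autoImplicit false

open scoped Classical
open Finset

/-! # [SM3-A9] the probability of a minimal kernel -/

namespace SM3

variable {ι : Type} [Fintype ι]

theorem a9_arith {T : ℕ → ℝ} {c : ℝ} (hc : 0 ≤ c)
    (h0 : (1 - 1 / 3 ^ 9) * c ≤ T 0) (h1 : T 1 ≤ c)
    (h2 : 3 * (1 - 1 / 3 ^ 9) * c ≤ T 2) (h3 : T 3 ≤ 27 * c) :
    311 / 500 * c ≤ T 0 - T 1 / 2 + T 2 / 16 - T 3 / 416 := by
  linarith

/-- [SM3-A9] **The kernel is minimal with probability at least `0.622`.** -/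
theorem main {L : Finset ι} {r : ι → ι → Prop} {a : ι → ι → ZMod 3} {e : ι → ZMod 3} (h : Gd L r a e)
    (hL : Fintype.card ι - L.card + 14 ≤ L.card) :
    (311 / 500 : ℝ) * Fintype.card (ι → ι → ZMod 3) ≤
      ((univ.filter fun ω : ι → ι → ZMod 3 => MinK (mx L r a ω) e).card : ℝ) := by
  have hLn : L.Nonempty := by
    rw [← card_pos]
    omega
  have : Nonempty ι := ⟨hLn.choose⟩
  obtain ⟨δ, hδ⟩ : ∃ δ : ℕ, (δ = 1 ∧ e = 0) ∨ (δ = 0 ∧ e ≠ 0) := by
    by_cases he : e = 0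
    · exact ⟨1, Or.inl ⟨rfl, he⟩⟩
    · exact ⟨0, Or.inr ⟨rfl, he⟩⟩
  set c : ℝ := (Fintype.card (ι → ι → ZMod 3) : ℝ) with hc
  have hc0 : 0 ≤ c := Nat.cast_nonneg _
  set T : ℕ → ℝ := fun j =>
    ((∑ ω : ι → ι → ZMod 3, (tup j (mx L r a ω) e).card : ℕ) : ℝ) / 3 ^ (δ * j) with hT
  have hge : ∀ j, j ≤ 3 → 3 ^ (j * (j - 1) / 2) * (1 - 1 / 3 ^ 9) * c ≤ T j := by
    intro j hj
    rw [hT]
    simp only
    rw [le_div_iff₀ (by positivity)]
    refine le_trans (le_of_eq ?_) (mean_ge hj h hδ hL)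
    ring
  have hle : ∀ j, T j ≤ 3 ^ (j * (j - 1) / 2) * c := by
    intro j
    rw [hT]
    simp only
    rw [div_le_iff₀ (by positivity)]
    refine le_trans (mean_le h hδ hLn) (le_of_eq ?_)
    ring
  have hsum : ∑ ω : ι → ι → ZMod 3, ∑ j ∈ range 4, (-1) ^ j * ((tup j (mx L r a ω) e).card : ℝ) /
      (3 ^ (δ * j) * ∏ i ∈ range j, ((3 : ℝ) ^ (i + 1) - 1)) ≤
      ((univ.filter fun ω : ι → ι → ZMod 3 => MinK (mx L r a ω) e).card : ℝ) := by
    refine le_trans (sum_le_sum fun ω _ => indicator_ge (mx L r a ω) e hδ) ?_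
    rw [card_filter]
    push_cast
    exact le_refl _
  refine le_trans ?_ hsum
  rw [sum_comm]
  have hj : ∀ j ∈ range 4, ∑ ω : ι → ι → ZMod 3, (-1) ^ j * ((tup j (mx L r a ω) e).card : ℝ) /
      (3 ^ (δ * j) * ∏ i ∈ range j, ((3 : ℝ) ^ (i + 1) - 1)) =
      (-1) ^ j * T j / ∏ i ∈ range j, ((3 : ℝ) ^ (i + 1) - 1) := by
    intro j _
    rw [hT]
    simp only
    push_cast
    rw [← sum_div, ← mul_sum, mul_div_assoc', div_div]
  rw [sum_congr rfl hj]
  have e0 := hge 0 (by norm_num)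
  have e1 := hle 1
  have e2 := hge 2 (by norm_num)
  have e3 := hle 3
  norm_num at e0 e1 e2 e3
  have hfin := a9_arith (T := T) hc0 (by norm_num; linarith) (by linarith) (by norm_num; linarith)
    (by linarith)
  refine le_trans hfin (le_of_eq ?_)
  simp only [sum_range_succ, sum_range_zero, prod_range_succ, prod_range_zero]
  norm_num
  ring

end SM3
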