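import Mathlib

set_option autoImplicit false

open scoped Classical
open Finset

/-!
# [SM3] random symmetric matrices over `F₃` with prescribed row sums: definitions

`a`, `b` are symbols on a finite set `ι` (values on the diagonal are irrelevant), `e : ι → F₃`; the matrix is the Laplacian of `b` plus `diag e`.
-/

namespace SM3

variable {ι : Type} [Fintype ι]

/-- the Laplacian -/
def Lp (b : ι → ι → ZMod 3) (z : ι → ZMod 3) (i : ι) : ZMod 3 := ∑ v, b i v * (z i - z v)

/-- the kernel of `Laplacian + diag e` -/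
noncomputable def Kr (b : ι → ι → ZMod 3) (e : ι → ZMod 3) : Finset (ι → ZMod 3) :=
  univ.filter fun z => ∀ i, Lp b z i + e i * z i = 0

/-- the kernel is as small as possible (the constants are in the kernel iff `e = 0`) -/
def MinK (b : ι → ι → ZMod 3) (e : ι → ZMod 3) : Prop :=
  (e ≠ 0 → ∀ z ∈ Kr b e, z = 0) ∧ (e = 0 → ∀ z ∈ Kr b e, ∃ c : ZMod 3, ∀ i, z i = c)

/-- `1, z 0, …, z (j - 1)` are linearly independent on the set `L` -/
def Ind {j : ℕ} (L : Finset ι) (z : Fin j → ι → ZMod 3) : Prop :=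
  ∀ (α : ZMod 3) (β : Fin j → ZMod 3), (∀ i ∈ L, α + ∑ k, β k * z k i = 0) → α = 0 ∧ β = 0

/-- the `j`-tuples in the kernel which are independent together with `1` -/
noncomputable def tup (j : ℕ) (b : ι → ι → ZMod 3) (e : ι → ZMod 3) : Finset (Fin j → ι → ZMod 3) :=
  univ.filter fun z => (∀ k, z k ∈ Kr b e) ∧ Ind univ z

/-- mixed symbols: for `u, v ∈ L` the value `ω` of the pair ordered by `r`, otherwise `a u v` -/
noncomputable def mx (L : Finset ι) (r : ι → ι → Prop) (a ω : ι → ι → ZMod 3) (u v : ι) : ZMod 3 :=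
  if u ∈ L ∧ v ∈ L then (if r u v then ω u v else ω v u) else a u v

/-- the vectors which satisfy the equations outside of `L`, and `e · z = 0` -/
noncomputable def Hs (L : Finset ι) (a : ι → ι → ZMod 3) (e : ι → ZMod 3) : Finset (ι → ZMod 3) :=
  univ.filter fun z => (∀ i, i ∉ L → Lp a z i + e i * z i = 0) ∧ ∑ i, e i * z i = 0

/-- the hypotheses: `r` is a tournament on `L`, `a` is symmetric, and no nontrivial combination of the rows outside of `L` and of `e` vanishes on `L` -/
structure Gd (L : Finset ι) (r : ι → ι → Prop) (a : ι → ι → ZMod 3) (e : ι → ZMod 3) : Prop where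
  tour : ∀ u ∈ L, ∀ v ∈ L, u ≠ v → (r u v ↔ ¬ r v u)
  symm : ∀ u v, u ≠ v → a u v = a v u
  ind : ∀ (y : ι → ZMod 3) (α : ZMod 3), (∀ u ∈ L, y u = 0) → (y ≠ 0 ∨ (α ≠ 0 ∧ e ≠ 0)) →
    ∃ p ∈ L, ∑ u, y u * a u p + α * e p ≠ 0

end SM3
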